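import Mathlib

set_option autoImplicit false

namespace Pool.Agent.Helper986.PDThree


section General

variable {G : Type} [Group G]

/-- A finitely supported function invariant under a map all of whose orbits are infinite vanishes. -/
lemma finsupp_eq_zero_of_invariant {X : Type} (f : X →₀ ℤ) (σ : X → X)
    (hσ : ∀ x, f (σ x) = f x)
    (hinj : ∀ x, Function.Injective (fun n : ℕ => σ^[n] x)) : f = 0 := by
  by_contra hne
  obtain ⟨x, hx⟩ : ∃ x, f x ≠ 0 := by
    by_contra h
    push Not at h
    exact hne (Finsupp.ext h)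
  have hall : ∀ n : ℕ, f (σ^[n] x) = f x := by
    intro n
    induction n with
    | zero => simp
    | succ n ih => rw [Function.iterate_succ_apply', hσ, ih]
  have hinf : (Set.range (fun n : ℕ => σ^[n] x)).Infinite := Set.infinite_range_of_injective (hinj x)
  apply hinf
  apply (f.support.finite_toSet).subset
  rintro _ ⟨n, rfl⟩
  simp only [Finset.mem_coe, Finsupp.mem_support_iff]
  rw [hall]
  exact hx

lemma mul_of_sub_one_eq_zero {g : G} (hg : ∀ n : ℤ, g ^ n = 1 → n = 0)
    {x : MonoidAlgebra ℤ G} (hx : x * (MonoidAlgebra.of ℤ G g - 1) = 0) : x = 0 := by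
  have h1 : x * MonoidAlgebra.of ℤ G g = x := by
    rw [mul_sub, mul_one, sub_eq_zero] at hx
    exact hx
  have h2 : ∀ h, x.coeff (h * g) = x.coeff h := by
    intro h
    have := congrArg (fun z : MonoidAlgebra ℤ G => z.coeff (h * g)) h1
    simp only [MonoidAlgebra.of_apply] at this
    rw [← this]
    rw [MonoidAlgebra.coeff_mul_single_apply]
    simp
  have h3 : x.coeff = 0 := by
    apply finsupp_eq_zero_of_invariant x.coeff (fun h => h * g) h2
    intro h m n hmn
    have key : ∀ k : ℕ, (fun h => h * g)^[k] h = h * g ^ k := by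
      intro k
      induction k with
      | zero => simp
      | succ k ih => rw [Function.iterate_succ_apply', ih, pow_succ, mul_assoc]
    simp only [key] at hmn
    have h4 : g ^ m = g ^ n := mul_left_cancel hmn
    have h5 : g ^ ((m : ℤ) - n) = 1 := by
      rw [zpow_sub, zpow_natCast, zpow_natCast, h4, mul_inv_cancel]
    have := hg _ h5
    omega
  exact MonoidAlgebra.ext (by simpa using h3)

/-- The subgroup of elements `g` with `g - 1` in a left ideal. -/
def leftSub (I : Submodule (MonoidAlgebra ℤ G) (MonoidAlgebra ℤ G)) : Subgroup G where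
  carrier := {g | MonoidAlgebra.of ℤ G g - 1 ∈ I}
  one_mem' := by
    change MonoidAlgebra.of ℤ G 1 - 1 ∈ I
    rw [map_one, sub_self]
    exact I.zero_mem
  mul_mem' := by
    intro a b ha hb
    have h : MonoidAlgebra.of ℤ G (a * b) - 1 =
        MonoidAlgebra.of ℤ G a • (MonoidAlgebra.of ℤ G b - 1) + (MonoidAlgebra.of ℤ G a - 1) := by
      rw [map_mul, smul_eq_mul]
      noncomm_ring
    change MonoidAlgebra.of ℤ G (a * b) - 1 ∈ I
    rw [h]
    exact I.add_mem (I.smul_mem _ hb) ha
  inv_mem' := by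
    intro a ha
    have h : MonoidAlgebra.of ℤ G a⁻¹ - 1 =
        -(MonoidAlgebra.of ℤ G a⁻¹ • (MonoidAlgebra.of ℤ G a - 1)) := by
      rw [smul_eq_mul, mul_sub, ← map_mul, inv_mul_cancel, map_one]
      noncomm_ring
    change MonoidAlgebra.of ℤ G a⁻¹ - 1 ∈ I
    rw [h]
    exact I.neg_mem (I.smul_mem _ ha)

lemma mem_leftSub {I : Submodule (MonoidAlgebra ℤ G) (MonoidAlgebra ℤ G)} {g : G} :
    g ∈ leftSub I ↔ MonoidAlgebra.of ℤ G g - 1 ∈ I := Iff.rfl

/-- pushing forward coefficients to a quotient set -/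
noncomputable def push {X : Type} (q : G → X) : MonoidAlgebra ℤ G →+ (X →₀ ℤ) where
  toFun x := Finsupp.mapDomain q x.coeff
  map_zero' := by simp
  map_add' x y := by simp [Finsupp.mapDomain_add]

lemma push_single {X : Type} (q : G → X) (g : G) (n : ℤ) :
    push q (MonoidAlgebra.single g n) = Finsupp.single (q g) n := by
  simp [push]


lemma commuting_pair {u v : G} (huv : u * v = v * u)
    (hu : ∀ n : ℤ, u ^ n = 1 → n = 0)
    (hv : ∀ n m : ℤ, v ^ n = u ^ m → n = 0)
    {x y : MonoidAlgebra ℤ G}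
    (h : x * (MonoidAlgebra.of ℤ G u - 1) + y * (MonoidAlgebra.of ℤ G v - 1) = 0) :
    ∃ p : MonoidAlgebra ℤ G, y = p * (MonoidAlgebra.of ℤ G u - 1) ∧
      x = - (p * (MonoidAlgebra.of ℤ G v - 1)) := by
  classical
  let A : Subgroup G := Subgroup.zpowers u
  let q : G → G ⧸ A := fun g => (QuotientGroup.mk g : G ⧸ A)
  have hcomm : ∀ k : ℤ, u ^ k * v = v * u ^ k := by
    intro k
    exact (Commute.zpow_left (show Commute u v from huv) k)
  let r : G ⧸ A → G ⧸ A := fun z => Quotient.liftOn' z (fun g => q (g * v)) (by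
    intro a b hab
    rw [QuotientGroup.leftRel_apply] at hab
    obtain ⟨k, hk⟩ := hab
    have hk' : u ^ k = a⁻¹ * b := hk
    apply QuotientGroup.eq.2
    refine ⟨k, ?_⟩
    change u ^ k = (a * v)⁻¹ * (b * v)
    have : b = a * u ^ k := by rw [hk']; group
    rw [this, mul_assoc a, hcomm]; group)
  have hr : ∀ g, r (q g) = q (g * v) := fun g => rfl
  have hiter : ∀ (n : ℕ) (g : G), r^[n] (q g) = q (g * v ^ n) := by
    intro n
    induction n with
    | zero => intro g; simp
    | succ n ih => intro g; rw [Function.iterate_succ_apply', ih, hr, pow_succ, mul_assoc]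
  have hqsurj : Function.Surjective q := QuotientGroup.mk_surjective
  have hrinj : Function.Injective r := by
    intro a b hab
    obtain ⟨a, rfl⟩ := hqsurj a
    obtain ⟨b, rfl⟩ := hqsurj b
    rw [hr, hr] at hab
    have := QuotientGroup.eq.1 hab
    obtain ⟨k, hk⟩ := this
    have hk' : u ^ k = (a * v)⁻¹ * (b * v) := hk
    apply QuotientGroup.eq.2
    refine ⟨k, ?_⟩
    change u ^ k = a⁻¹ * b
    have : v * u ^ k = a⁻¹ * b * v := by rw [hk']; group
    rw [← hcomm] at this
    exact mul_right_cancel this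
  have hqu : ∀ x : MonoidAlgebra ℤ G, push q (x * MonoidAlgebra.of ℤ G u) = push q x := by
    intro x
    have : (push q).comp (AddMonoidHom.mulRight (MonoidAlgebra.of ℤ G u)) = push q := by
      apply MonoidAlgebra.addMonoidHom_ext
      intro g n
      simp only [AddMonoidHom.comp_apply, AddMonoidHom.coe_mulRight, MonoidAlgebra.of_apply,
        MonoidAlgebra.single_mul_single, push_single, mul_one]
      congr 1
      apply QuotientGroup.eq.2
      refine ⟨-1, ?_⟩
      change u ^ (-1 : ℤ) = (g * u)⁻¹ * g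
      group
    exact DFunLike.congr_fun this x
  have hqv : ∀ x : MonoidAlgebra ℤ G, push q (x * MonoidAlgebra.of ℤ G v) =
      Finsupp.mapDomain r (push q x) := by
    intro x
    have : (push q).comp (AddMonoidHom.mulRight (MonoidAlgebra.of ℤ G v)) =
        (Finsupp.mapDomain.addMonoidHom r).comp (push q) := by
      apply MonoidAlgebra.addMonoidHom_ext
      intro g n
      simp only [AddMonoidHom.comp_apply, AddMonoidHom.coe_mulRight, MonoidAlgebra.of_apply,
        MonoidAlgebra.single_mul_single, push_single, mul_one, Finsupp.mapDomain.addMonoidHom_apply,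
        Finsupp.mapDomain_single, hr]
    exact DFunLike.congr_fun this x
  have hy0 : push q y = 0 := by
    have h1 := congrArg (push q) h
    rw [map_add, mul_sub, mul_sub, map_sub, map_sub, mul_one, mul_one, hqu, hqv, sub_self, zero_add,
      map_zero, sub_eq_zero] at h1
    apply finsupp_eq_zero_of_invariant _ r
    · intro z
      conv_lhs => rw [← h1]
      exact Finsupp.mapDomain_apply hrinj _ _
    · intro z m n hmn
      obtain ⟨g, rfl⟩ := hqsurj z
      simp only [hiter] at hmn
      obtain ⟨k, hk⟩ := QuotientGroup.eq.1 hmn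
      have hk' : u ^ k = (g * v ^ m)⁻¹ * (g * v ^ n) := hk
      have h2 : v ^ ((n : ℤ) - m) = u ^ k := by
        rw [hk', zpow_sub, zpow_natCast, zpow_natCast]
        have : Commute (v ^ n) ((v ^ m)⁻¹) := by
          apply Commute.inv_right
          exact (Commute.refl v).pow_pow n m
        rw [this.eq]; group
      have := hv _ _ h2
      omega
  let I : Submodule (MonoidAlgebra ℤ G) (MonoidAlgebra ℤ G) :=
    Submodule.span _ {MonoidAlgebra.of ℤ G u - 1}
  have huI : A ≤ leftSub I := by
    rw [Subgroup.zpowers_le]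
    exact Submodule.subset_span rfl
  have hout : ∀ x : MonoidAlgebra ℤ G,
      x - (MonoidAlgebra.ofCoeff (Finsupp.mapDomain (fun z : G ⧸ A => z.out) (push q x))) ∈ I := by
    intro x
    induction x using MonoidAlgebra.induction_on with
    | of g =>
      rw [MonoidAlgebra.of_apply, push_single, Finsupp.mapDomain_single]
      obtain ⟨k, hk⟩ := QuotientGroup.mk_out_eq_mul A g
      have hmem : (k : G)⁻¹ ∈ leftSub I := huI (A.inv_mem k.2)
      have h3 : (MonoidAlgebra.ofCoeff (Finsupp.single (q g).out 1) : MonoidAlgebra ℤ G) =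
          MonoidAlgebra.of ℤ G (g * k) := by
        rw [← hk]; rfl
      rw [h3]
      have h4 : (MonoidAlgebra.single g 1 : MonoidAlgebra ℤ G) - MonoidAlgebra.of ℤ G (g * k) =
          MonoidAlgebra.of ℤ G (g * k) • (MonoidAlgebra.of ℤ G (k : G)⁻¹ - 1) := by
        rw [smul_eq_mul, mul_sub, ← map_mul, mul_one]
        congr 1
        rw [MonoidAlgebra.of_apply]
        congr 1
        group
      rw [h4]
      exact I.smul_mem _ hmem
    | add x y hx hy =>
      have : x + y - MonoidAlgebra.ofCoeff (Finsupp.mapDomain (fun z : G ⧸ A => z.out)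
          (push q (x + y))) = (x - MonoidAlgebra.ofCoeff
            (Finsupp.mapDomain (fun z : G ⧸ A => z.out) (push q x))) +
          (y - MonoidAlgebra.ofCoeff (Finsupp.mapDomain (fun z : G ⧸ A => z.out) (push q y))) := by
        rw [map_add, Finsupp.mapDomain_add, MonoidAlgebra.ofCoeff_add]
        abel
      rw [this]
      exact I.add_mem hx hy
    | smul c x hx =>
      have : c • x - MonoidAlgebra.ofCoeff (Finsupp.mapDomain (fun z : G ⧸ A => z.out)
          (push q (c • x))) = c • (x - MonoidAlgebra.ofCoeff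
            (Finsupp.mapDomain (fun z : G ⧸ A => z.out) (push q x))) := by
        rw [map_zsmul, Finsupp.mapDomain_smul, MonoidAlgebra.ofCoeff_smul, smul_sub]
      rw [this]
      exact zsmul_mem hx c
  have hyI : y ∈ I := by
    have := hout y
    rw [hy0, Finsupp.mapDomain_zero] at this
    simpa using this
  obtain ⟨p, hp⟩ := Submodule.mem_span_singleton.1 hyI
  rw [smul_eq_mul] at hp
  refine ⟨p, hp.symm, ?_⟩
  have hc : (MonoidAlgebra.of ℤ G u - 1) * (MonoidAlgebra.of ℤ G v - 1) =
      (MonoidAlgebra.of ℤ G v - 1) * (MonoidAlgebra.of ℤ G u - 1) := by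
    have h6 : MonoidAlgebra.of ℤ G u * MonoidAlgebra.of ℤ G v =
        MonoidAlgebra.of ℤ G v * MonoidAlgebra.of ℤ G u := by
      rw [← map_mul, ← map_mul, huv]
    simp only [mul_sub, sub_mul, one_mul, mul_one, h6]
    abel
  have h5 : (x + p * (MonoidAlgebra.of ℤ G v - 1)) * (MonoidAlgebra.of ℤ G u - 1) = 0 := by
    rw [add_mul, mul_assoc, ← hc, ← mul_assoc, hp]
    exact h
  have := mul_of_sub_one_eq_zero hu h5
  rw [← eq_neg_iff_add_eq_zero] at this
  exact this

end General


lemma fox_exists (j : Fin 2) : ∃ ψ : FreeGroup (Fin 2) → ℤ, ∀ (g : FreeGroup (Fin 2)) (k : Fin 2),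
    ψ (g * FreeGroup.of k) = ψ g + (if k = j ∧ g = 1 then 1 else 0) := by
  classical
  let T : Fin 2 → Equiv.Perm (FreeGroup (Fin 2) → ℤ) := fun k =>
    { toFun := fun m h => m ((FreeGroup.of k)⁻¹ * h) + (if k = j ∧ h = 1 then 1 else 0)
      invFun := fun m h => m (FreeGroup.of k * h) - (if k = j ∧ FreeGroup.of k * h = 1 then 1 else 0)
      left_inv := by
        intro m
        funext h
        simp
      right_inv := by
        intro m
        funext h
        simp }
  have hT : ∀ k m h, T k m h = m ((FreeGroup.of k)⁻¹ * h) + (if k = j ∧ h = 1 then 1 else 0) :=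
    fun _ _ _ => rfl
  have hT' : ∀ k m h, (T k)⁻¹ m h =
      m (FreeGroup.of k * h) - (if k = j ∧ FreeGroup.of k * h = 1 then 1 else 0) :=
    fun _ _ _ => rfl
  let ρ : FreeGroup (Fin 2) →* Equiv.Perm (FreeGroup (Fin 2) → ℤ) := FreeGroup.lift T
  have hρ : ∀ g m h, ρ g m h = m (g⁻¹ * h) + ρ g 0 h := by
    intro g
    induction g using FreeGroup.induction_on with
    | C1 => intro m h; simp
    | of k =>
      intro m h
      have : ρ (FreeGroup.of k) = T k := FreeGroup.lift_apply_of
      change ρ (FreeGroup.of k) m h = m ((FreeGroup.of k)⁻¹ * h) + ρ (FreeGroup.of k) 0 h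
      rw [this, hT, hT]
      simp
    | inv_of k _ =>
      intro m h
      have : ρ (FreeGroup.of k)⁻¹ = (T k)⁻¹ := by
        rw [map_inv]
        congr 1
      change ρ (FreeGroup.of k)⁻¹ m h = m (((FreeGroup.of k)⁻¹)⁻¹ * h) + ρ (FreeGroup.of k)⁻¹ 0 h
      rw [this, hT', hT']
      simp [sub_eq_add_neg]
    | mul x y hx hy =>
      intro m h
      rw [map_mul, Equiv.Perm.mul_apply, Equiv.Perm.mul_apply, hx, hx (ρ y 0), hy, mul_inv_rev,
        mul_assoc, add_assoc]
  refine ⟨fun g => ρ g 0 1, ?_⟩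
  intro g k
  have h1 : ρ (FreeGroup.of k) = T k := FreeGroup.lift_apply_of
  simp only
  rw [map_mul, Equiv.Perm.mul_apply, hρ, h1, hT]
  simp
  ring


section
variable {G : Type} [Group G]

/-- pairing of a group ring element with a function -/
noncomputable def pair (ψ : G → ℤ) : MonoidAlgebra ℤ G →+ ℤ where
  toFun x := x.coeff.sum (fun g n => n * ψ g)
  map_zero' := by simp
  map_add' x y := by
    rw [MonoidAlgebra.coeff_add, Finsupp.sum_add_index']
    · intro; simp
    · intro a b c; ring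

lemma pair_single (ψ : G → ℤ) (g : G) (n : ℤ) :
    pair ψ (MonoidAlgebra.single g n) = n * ψ g := by
  simp [pair]

open Classical in
lemma free_pair_aux (i : FreeGroup (Fin 2) →* G) (hi : Function.Injective i) (j : Fin 2) :
    ∃ ψ : G → ℤ, ∀ (g : G) (k : Fin 2),
    ψ (g * i (FreeGroup.of k)) = ψ g + (if k = j ∧ g = 1 then 1 else 0) := by
  obtain ⟨ψ₀, h₀⟩ := fox_exists j
  refine ⟨fun g => if h : ∃ f, i f = g then ψ₀ h.choose else 0, ?_⟩
  intro g k
  by_cases hg : ∃ f, i f = g
  · obtain ⟨f, rfl⟩ := hg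
    have e1 : ∃ f', i f' = i f * i (FreeGroup.of k) := ⟨f * FreeGroup.of k, map_mul _ _ _⟩
    have e2 : ∃ f', i f' = i f := ⟨f, rfl⟩
    have c1 : e1.choose = f * FreeGroup.of k := hi (by rw [e1.choose_spec, map_mul])
    have c2 : e2.choose = f := hi e2.choose_spec
    simp only
    rw [dif_pos e1, dif_pos e2, c1, c2, h₀]
    congr 1
    have : i f = 1 ↔ f = 1 := by
      constructor
      · intro h; apply hi; rw [h, map_one]
      · rintro rfl; exact map_one _
    simp only [this]
  · have e1 : ¬ ∃ f', i f' = g * i (FreeGroup.of k) := by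
      rintro ⟨f', hf'⟩
      exact hg ⟨f' * (FreeGroup.of k)⁻¹, by rw [map_mul, hf', map_inv]; group⟩
    have hne : g ≠ 1 := by
      rintro rfl
      exact hg ⟨1, map_one _⟩
    simp only
    rw [dif_neg e1, dif_neg hg, if_neg (by tauto)]
    simp

lemma free_pair_coeff (i : FreeGroup (Fin 2) →* G) (hi : Function.Injective i)
    {x : Fin 2 → MonoidAlgebra ℤ G}
    (h : x 0 * (MonoidAlgebra.of ℤ G (i (FreeGroup.of 0)) - 1) +
      x 1 * (MonoidAlgebra.of ℤ G (i (FreeGroup.of 1)) - 1) = 0) (j : Fin 2) : x j = 0 := by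
  classical
  obtain ⟨ψ, hψ⟩ := free_pair_aux i hi j
  have key : ∀ (h : G) (k : Fin 2) (z : MonoidAlgebra ℤ G),
      pair (fun g => ψ (h⁻¹ * g)) (z * (MonoidAlgebra.of ℤ G (i (FreeGroup.of k)) - 1)) =
        if k = j then z.coeff h else 0 := by
    intro h k z
    have : (pair (fun g => ψ (h⁻¹ * g))).comp
        (AddMonoidHom.mulRight (MonoidAlgebra.of ℤ G (i (FreeGroup.of k)) - 1)) =
        (if k = j then (Finsupp.applyAddHom h).comp
          (MonoidAlgebra.coeffAddEquiv.toAddMonoidHom) else 0 : MonoidAlgebra ℤ G →+ ℤ) := by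
      apply MonoidAlgebra.addMonoidHom_ext
      intro g n
      simp only [AddMonoidHom.comp_apply, AddMonoidHom.coe_mulRight, MonoidAlgebra.of_apply,
        mul_sub, mul_one, MonoidAlgebra.single_mul_single, map_sub, pair_single]
      rw [← mul_assoc, hψ]
      by_cases hk : k = j
      · simp only [hk, if_true, true_and]
        by_cases hg : h⁻¹ * g = 1
        · have : h = g := by
            rw [inv_mul_eq_one] at hg; exact hg
          subst this
          simp [mul_add]
        · have : g ≠ h := by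
            rintro rfl; exact hg (by simp)
          simp [hg, this]
      · simp [hk]
    have h2 := DFunLike.congr_fun this z
    simp only [AddMonoidHom.comp_apply, AddMonoidHom.coe_mulRight] at h2
    rw [h2]
    split_ifs <;> rfl
  apply MonoidAlgebra.ext
  apply Finsupp.ext
  intro g
  have h3 := congrArg (pair (fun g' => ψ (g⁻¹ * g'))) h
  rw [map_add, key, key, map_zero] at h3
  fin_cases j <;> simpa using h3

end



/-- left sides of the eight defining relations -/
def lhs : Fin 8 → FreeGroup (Fin 6) :=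
  let x := fun i : Fin 6 => FreeGroup.of i
  ![x 0 * x 2, x 0 * x 3, x 1 * x 2, x 1 * x 3, x 0 * x 4, x 2 * x 3 * x 4, x 2 * x 5, x 0 * x 1 * x 5]

/-- right sides of the eight defining relations -/
def rhs : Fin 8 → FreeGroup (Fin 6) :=
  let x := fun i : Fin 6 => FreeGroup.of i
  ![x 2 * x 0, x 3 * x 0, x 2 * x 1, x 3 * x 1, x 4 * x 1, x 4 * (x 2 * x 3), x 5 * x 3, x 5 * (x 0 * x 1)]

/-- relators -/
def rels : Set (FreeGroup (Fin 6)) := Set.range (fun i => lhs i * (rhs i)⁻¹)

/-- the group -/
abbrev Gam : Type := PresentedGroup rels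

/-- generators -/
def gen (i : Fin 6) : Gam := PresentedGroup.of i

lemma rel_eq (i : Fin 8) : PresentedGroup.mk rels (lhs i) = PresentedGroup.mk rels (rhs i) := by
  have : PresentedGroup.mk rels (lhs i * (rhs i)⁻¹) = 1 :=
    PresentedGroup.one_of_mem ⟨i, rfl⟩
  rw [map_mul, map_inv, mul_inv_eq_one] at this
  exact this

/-- mapping out of the group -/
def lft {H : Type} [Group H] (f : Fin 6 → H)
    (hf : ∀ i, FreeGroup.lift f (lhs i) = FreeGroup.lift f (rhs i)) : Gam →* H :=
  PresentedGroup.toGroup (f := f) (by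
    rintro r ⟨i, rfl⟩
    simp only [map_mul, map_inv]
    rw [hf, mul_inv_cancel])

lemma lft_gen {H : Type} [Group H] (f : Fin 6 → H)
    (hf : ∀ i, FreeGroup.lift f (lhs i) = FreeGroup.lift f (rhs i)) (i : Fin 6) :
    lft f hf (gen i) = f i := PresentedGroup.toGroup.of _

lemma rels_iff {H : Type} [Group H] (f : Fin 6 → H) :
    (∀ i, FreeGroup.lift f (lhs i) = FreeGroup.lift f (rhs i)) ↔
      (f 0 * f 2 = f 2 * f 0 ∧ f 0 * f 3 = f 3 * f 0 ∧ f 1 * f 2 = f 2 * f 1 ∧
       f 1 * f 3 = f 3 * f 1 ∧ f 0 * f 4 = f 4 * f 1 ∧ f 2 * f 3 * f 4 = f 4 * (f 2 * f 3) ∧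
       f 2 * f 5 = f 5 * f 3 ∧ f 0 * f 1 * f 5 = f 5 * (f 0 * f 1)) := by
  constructor
  · intro h
    have h0 := h 0
    have h1 := h 1
    have h2 := h 2
    have h3 := h 3
    have h4 := h 4
    have h5 := h 5
    have h6 := h 6
    have h7 := h 7
    simp [lhs, rhs] at h0 h1 h2 h3 h4 h5 h6 h7
    exact ⟨h0, h1, h2, h3, h4, h5, h6, h7⟩
  · rintro ⟨h0, h1, h2, h3, h4, h5, h6, h7⟩ i
    fin_cases i <;> simp [lhs, rhs] <;> assumption

lemma gen_rels : (gen 0 * gen 2 = gen 2 * gen 0 ∧ gen 0 * gen 3 = gen 3 * gen 0 ∧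
    gen 1 * gen 2 = gen 2 * gen 1 ∧
       gen 1 * gen 3 = gen 3 * gen 1 ∧ gen 0 * gen 4 = gen 4 * gen 1 ∧
       gen 2 * gen 3 * gen 4 = gen 4 * (gen 2 * gen 3) ∧
       gen 2 * gen 5 = gen 5 * gen 3 ∧ gen 0 * gen 1 * gen 5 = gen 5 * (gen 0 * gen 1)) := by
  have h : ∀ w, FreeGroup.lift gen w = PresentedGroup.mk rels w := by
    intro w
    have : FreeGroup.lift gen = PresentedGroup.mk rels := by
      apply FreeGroup.ext_hom
      intro a
      simp [gen]
      rfl
    rw [this]
  apply (rels_iff gen).1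
  intro i
  rw [h, h, rel_eq]

lemma gen_closure : Subgroup.closure (Set.range gen) = ⊤ := PresentedGroup.closure_range_of _


/-- shift automorphism -/
def shf : MulAut (FreeGroup ℤ) := FreeGroup.freeGroupCongr (Equiv.addRight 1)

lemma shf_of (n : ℤ) : shf (FreeGroup.of n) = FreeGroup.of (n + 1) := by
  simp [shf]

/-- the group `F(Z) ⋊ Z` -/
abbrev Wr : Type := FreeGroup ℤ ⋊[zpowersHom (MulAut (FreeGroup ℤ)) shf] Multiplicative ℤ

/-- images of generators -/
def fa : Fin 6 → Wr := ![SemidirectProduct.inl (FreeGroup.of 0), SemidirectProduct.inl (FreeGroup.of (-1)),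
  1, 1, SemidirectProduct.inr (Multiplicative.ofAdd 1), 1]

lemma fa_rel : ∀ i, FreeGroup.lift fa (lhs i) = FreeGroup.lift fa (rhs i) := by
  rw [rels_iff]
  refine ⟨by simp [fa], by simp [fa], by simp [fa], by simp [fa], ?_, by simp [fa], by simp [fa],
    by simp [fa]⟩
  simp only [fa]
  apply SemidirectProduct.ext
  · simp [zpowersHom_apply, shf_of]
  · simp

/-- hom detecting `a1,a2` -/
def pia : Gam →* Wr := lft fa fa_rel

/-- inclusion of the free group on `a1,a2` -/
def ia : FreeGroup (Fin 2) →* Gam := FreeGroup.lift ![gen 0, gen 1]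

lemma ia_inj : Function.Injective ia := by
  have h : ∀ w, pia (ia w) = SemidirectProduct.inl (FreeGroup.map (fun k : Fin 2 => -(k : ℤ)) w) := by
    intro w
    have : pia.comp ia = (SemidirectProduct.inl).comp
        (FreeGroup.map (fun k : Fin 2 => -(k : ℤ))) := by
      apply FreeGroup.ext_hom
      intro k
      fin_cases k
      · simp [ia, pia, lft_gen, fa]
      · simp [ia, pia, lft_gen, fa]
    exact DFunLike.congr_fun this w
  intro w1 w2 hw
  have h2 := congrArg pia hw
  rw [h, h] at h2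
  have h3 := SemidirectProduct.inl_injective h2
  apply FreeGroup.map_injective _ h3
  intro k1 k2 hk
  simp only [neg_inj, Nat.cast_inj] at hk
  exact Fin.ext hk

/-- a degree map -/
def dg (c : Fin 6 → ℤ) (h : c 0 = c 1 ∧ c 2 = c 3) : Gam →* Multiplicative ℤ :=
  lft (fun i => Multiplicative.ofAdd (c i)) (by
    rw [rels_iff]
    refine ⟨?_, ?_, ?_, ?_, ?_, ?_, ?_, ?_⟩
    all_goals
      apply Multiplicative.toAdd.injective
      simp only [toAdd_mul, toAdd_ofAdd]
      omega)

lemma dg_gen (c : Fin 6 → ℤ) (h : c 0 = c 1 ∧ c 2 = c 3) (i : Fin 6) :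
    dg c h (gen i) = Multiplicative.ofAdd (c i) := lft_gen _ _ _

lemma ord_a : ∀ n : ℤ, gen 0 ^ n = 1 → n = 0 := by
  intro n hn
  have := congrArg (dg ![1, 1, 0, 0, 0, 0] ⟨rfl, rfl⟩) hn
  rw [map_zpow, dg_gen, map_one] at this
  have h2 := congrArg Multiplicative.toAdd this
  simpa using h2

lemma ord_b : ∀ n : ℤ, gen 2 ^ n = 1 → n = 0 := by
  intro n hn
  have := congrArg (dg ![0, 0, 1, 1, 0, 0] ⟨rfl, rfl⟩) hn
  rw [map_zpow, dg_gen, map_one] at this
  have h2 := congrArg Multiplicative.toAdd this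
  simpa using h2

lemma ind_a : ∀ n m : ℤ, (gen 2 * gen 3) ^ n = gen 0 ^ m → n = 0 := by
  intro n m hn
  have := congrArg (dg ![0, 0, 1, 1, 0, 0] ⟨rfl, rfl⟩) hn
  rw [map_zpow, map_zpow, map_mul, dg_gen, dg_gen, dg_gen] at this
  have h2 := congrArg Multiplicative.toAdd this
  simp at h2
  omega

lemma ind_b : ∀ n m : ℤ, (gen 0 * gen 1) ^ n = gen 2 ^ m → n = 0 := by
  intro n m hn
  have := congrArg (dg ![1, 1, 0, 0, 0, 0] ⟨rfl, rfl⟩) hn
  rw [map_zpow, map_zpow, map_mul, dg_gen, dg_gen, dg_gen] at this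
  have h2 := congrArg Multiplicative.toAdd this
  simp at h2
  omega


end Pool.Agent.Helper986.PDThree
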