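import Mathlib
import Pool.Agent.Helper986.PDThree.A

set_option autoImplicit false
set_option linter.unusedSimpArgs false

namespace Pool.Agent.Helper986.PDThree

/-- the group ring -/
abbrev R : Type := MonoidAlgebra ℤ Gam

/-- generators in the group ring -/
noncomputable def e (i : Fin 6) : R := MonoidAlgebra.of ℤ Gam (gen i)

/-- left linear map given by right multiplication with a matrix -/
noncomputable def mlin {m n : ℕ} (M : Fin m → Fin n → R) : (Fin m → R) →ₗ[R] (Fin n → R) where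
  toFun x := fun j => ∑ i, x i * M i j
  map_add' x y := by
    funext j
    simp [add_mul, Finset.sum_add_distrib]
  map_smul' r x := by
    funext j
    simp [mul_assoc, Finset.mul_sum]

lemma mlin_apply {m n : ℕ} (M : Fin m → Fin n → R) (x : Fin m → R) (j : Fin n) :
    mlin M x j = ∑ i, x i * M i j := rfl

/-- first boundary matrix -/
noncomputable def M1 : Fin 6 → Fin 1 → R := fun i _ => e i - 1

/-- second boundary matrix -/
noncomputable def M2 : Fin 8 → Fin 6 → R :=
  ![![-(e 2 - 1), 0, e 0 - 1, 0, 0, 0],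
    ![-(e 3 - 1), 0, 0, e 0 - 1, 0, 0],
    ![0, -(e 2 - 1), e 1 - 1, 0, 0, 0],
    ![0, -(e 3 - 1), 0, e 1 - 1, 0, 0],
    ![1, -(e 4), 0, 0, e 0 - 1, 0],
    ![0, 0, 1 - e 4, (1 - e 4) * e 2, e 2 * e 3 - 1, 0],
    ![0, 0, 1, -(e 5), 0, e 2 - 1],
    ![1 - e 5, (1 - e 5) * e 0, 0, 0, 0, e 0 * e 1 - 1]]

/-- third boundary matrix -/
noncomputable def M3 : Fin 2 → Fin 8 → R :=
  ![![-1, -(e 2), e 4, e 4 * e 2, -(e 2 * e 3 - 1), e 0 - 1, 0, 0],
    ![1, -(e 5), e 0, -(e 5 * e 0), 0, 0, -(e 0 * e 1 - 1), e 2 - 1]]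

lemma e_rels : (e 0 * e 2 = e 2 * e 0 ∧ e 0 * e 3 = e 3 * e 0 ∧
    e 1 * e 2 = e 2 * e 1 ∧
       e 1 * e 3 = e 3 * e 1 ∧ e 0 * e 4 = e 4 * e 1 ∧
       e 2 * (e 3 * e 4) = e 4 * (e 2 * e 3) ∧
       e 2 * e 5 = e 5 * e 3 ∧ e 0 * (e 1 * e 5) = e 5 * (e 0 * e 1)) := by
  obtain ⟨h0, h1, h2, h3, h4, h5, h6, h7⟩ := gen_rels
  simp only [e, ← map_mul]
  rw [h0, h1, h2, h3, h4, h6, ← mul_assoc (gen 2), h5, ← mul_assoc (gen 0), h7]
  simp

lemma rr {a b c : R} (h : a * b = c) (x : R) : a * (b * x) = c * x := by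
  rw [← mul_assoc, h]

lemma rr3 {a b c d : R} (h : a * (b * c) = d) (x : R) : a * (b * (c * x)) = d * x := by
  rw [← mul_assoc b, ← mul_assoc a, h]

lemma M32 (i : Fin 2) (k : Fin 6) : ∑ j, M3 i j * M2 j k = 0 := by
  obtain ⟨h0, h1, h2, h3, h4, h5, h6, h7⟩ := e_rels
  have k0 := rr h0
  have k1 := rr h1
  have k2 := rr h2
  have k3 := rr h3
  have k4 := rr h4
  have k5 := rr3 h5
  have k6 := rr h6
  have k7 := rr3 h7
  fin_cases i <;> fin_cases k <;>
  simp [M3, M2, Fin.sum_univ_succ, mul_sub, sub_mul, mul_assoc, h0, h1, h2, h3, h4, h5, h6, h7,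
    k0, k1, k2, k3, k4, k5, k6, k7] <;> abel

lemma M21 (i : Fin 8) (k : Fin 1) : ∑ j, M2 i j * M1 j k = 0 := by
  obtain ⟨h0, h1, h2, h3, h4, h5, h6, h7⟩ := e_rels
  have k0 := rr h0
  have k1 := rr h1
  have k2 := rr h2
  have k3 := rr h3
  have k4 := rr h4
  have k5 := rr3 h5
  have k6 := rr h6
  have k7 := rr3 h7
  fin_cases i <;> fin_cases k <;>
  simp [M1, M2, Fin.sum_univ_succ, mul_sub, sub_mul, mul_assoc, h0, h1, h2, h3, h4, h5, h6, h7,
    k0, k1, k2, k3, k4, k5, k6, k7] <;> abel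


/-- augmentation ideal generated by `g - 1` -/
noncomputable def aug : Submodule R R :=
  Submodule.span R (Set.range (fun g : Gam => MonoidAlgebra.of ℤ Gam g - 1))

lemma exact0 (z : R) (hz : z ∈ aug) : ∃ x : Fin 6 → R, ∑ i, x i * M1 i 0 = z := by
  let I : Submodule R R := LinearMap.range ((LinearMap.proj (0 : Fin 1)).comp (mlin M1))
  have hI : ∀ w, w ∈ I ↔ ∃ x : Fin 6 → R, ∑ i, x i * M1 i 0 = w := by
    intro w
    simp only [I, LinearMap.mem_range, LinearMap.comp_apply, LinearMap.proj_apply, mlin_apply]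
  rw [← hI]
  have htop : leftSub I = ⊤ := by
    rw [eq_top_iff, ← gen_closure, Subgroup.closure_le]
    rintro _ ⟨i, rfl⟩
    change MonoidAlgebra.of ℤ Gam (gen i) - 1 ∈ I
    rw [hI]
    exact ⟨Pi.single i 1, by simp [Pi.single_apply, M1, e]⟩
  have : aug ≤ I := by
    rw [aug, Submodule.span_le]
    rintro _ ⟨g, rfl⟩
    have : g ∈ leftSub I := by rw [htop]; trivial
    exact this
  exact this hz

lemma exact3 (z : Fin 2 → R) (hz : ∀ k, ∑ i, z i * M3 i k = 0) : z = 0 := by
  have h5 := hz 5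
  have h7 := hz 7
  simp [M3, Fin.sum_univ_succ] at h5 h7
  funext i
  fin_cases i
  · exact mul_of_sub_one_eq_zero ord_a h5
  · exact mul_of_sub_one_eq_zero ord_b h7

lemma exact2 (y : Fin 8 → R) (hy : ∀ k, ∑ i, y i * M2 i k = 0) :
    ∃ z : Fin 2 → R, ∀ k, ∑ i, z i * M3 i k = y k := by
  obtain ⟨h0, h1, h2, h3, h4, h5, h6, h7⟩ := gen_rels
  have hs := hy 4
  have ht := hy 5
  simp [M2, Fin.sum_univ_succ] at hs ht
  have hcomm1 : gen 0 * (gen 2 * gen 3) = (gen 2 * gen 3) * gen 0 := by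
    rw [← mul_assoc, h0, mul_assoc, h1, ← mul_assoc]
  have hcomm2 : gen 2 * (gen 0 * gen 1) = (gen 0 * gen 1) * gen 2 := by
    rw [← mul_assoc, ← h0, mul_assoc, ← h2, ← mul_assoc]
  have hs' : y 4 * (MonoidAlgebra.of ℤ Gam (gen 0) - 1) +
      y 5 * (MonoidAlgebra.of ℤ Gam (gen 2 * gen 3) - 1) = 0 := by
    rw [map_mul]; exact hs
  have ht' : y 6 * (MonoidAlgebra.of ℤ Gam (gen 2) - 1) +
      y 7 * (MonoidAlgebra.of ℤ Gam (gen 0 * gen 1) - 1) = 0 := by
    rw [map_mul]; exact ht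
  obtain ⟨p, hp5, hp4⟩ := commuting_pair hcomm1 ord_a ind_a hs'
  obtain ⟨q, hq7, hq6⟩ := commuting_pair hcomm2 ord_b ind_b ht'
  rw [map_mul] at hp4 hq6
  change y 5 = p * (e 0 - 1) at hp5
  change y 4 = -(p * (e 2 * e 3 - 1)) at hp4
  change y 7 = q * (e 2 - 1) at hq7
  change y 6 = -(q * (e 0 * e 1 - 1)) at hq6
  let z : Fin 2 → R := ![p, q]
  let y' : Fin 8 → R := fun k => y k - ∑ i, z i * M3 i k
  have hy' : ∀ k, ∑ i, y' i * M2 i k = 0 := by
    intro k
    simp only [y', sub_mul, Finset.sum_sub_distrib, hy, zero_sub, neg_eq_zero]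
    simp only [Finset.sum_mul]
    rw [Finset.sum_comm]
    apply Finset.sum_eq_zero
    intro i _
    simp only [mul_assoc, ← Finset.mul_sum]
    rw [M32, mul_zero]
  have y4 : y' 4 = 0 := by
    simp [y', z, M3, Fin.sum_univ_succ, hp4, mul_sub]
  have y5 : y' 5 = 0 := by simp [y', z, M3, Fin.sum_univ_succ, hp5]
  have y6 : y' 6 = 0 := by
    simp [y', z, M3, Fin.sum_univ_succ, hq6, mul_sub]
  have y7 : y' 7 = 0 := by simp [y', z, M3, Fin.sum_univ_succ, hq7]
  have hb1 := hy' 2
  have hb2 := hy' 3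
  rw [Fin.sum_univ_eight] at hb1 hb2
  rw [y4, y5, y6, y7] at hb1 hb2
  simp [M2] at hb1 hb2
  have hia0 : ia (FreeGroup.of 0) = gen 0 := by simp [ia]
  have hia1 : ia (FreeGroup.of 1) = gen 1 := by simp [ia]
  have k1 : ∀ j, (![y' 0, y' 2] : Fin 2 → R) j = 0 := by
    apply free_pair_coeff ia ia_inj
    rw [hia0, hia1]
    exact hb1
  have k2 : ∀ j, (![y' 1, y' 3] : Fin 2 → R) j = 0 := by
    apply free_pair_coeff ia ia_inj
    rw [hia0, hia1]
    exact hb2
  refine ⟨z, ?_⟩
  have hall : ∀ k, y' k = 0 := by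
    intro k
    fin_cases k
    · exact k1 0
    · exact k2 0
    · exact k1 1
    · exact k2 1
    · exact y4
    · exact y5
    · exact y6
    · exact y7
  intro k
  have := hall k
  simp only [y', sub_eq_zero] at this
  exact this.symm


/-- cokernel of the second boundary -/
abbrev Cok : Type := (Fin 6 → R) ⧸ LinearMap.range (mlin M2)

/-- classes of basis vectors -/
noncomputable def c (i : Fin 6) : Cok := Submodule.Quotient.mk (Pi.single i 1)

lemma c_row (r : Fin 8) : ∑ j, M2 r j • c j = 0 := by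
  have h1 : (∑ j, M2 r j • c j) = Submodule.Quotient.mk (M2 r) := by
    have : (M2 r) = ∑ j, M2 r j • (Pi.single j 1 : Fin 6 → R) := by
      funext k
      simp [Finset.sum_apply, Pi.single_apply]
    conv_rhs => rw [this]
    rw [← Submodule.mkQ_apply, map_sum]
    rfl
  rw [h1, Submodule.Quotient.mk_eq_zero]
  refine ⟨Pi.single r 1, ?_⟩
  funext k
  simp [mlin_apply, Pi.single_apply]

/-- affine action of the generators -/
noncomputable def T (i : Fin 6) : Equiv.Perm Cok where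
  toFun m := e i • m + c i
  invFun m := MonoidAlgebra.of ℤ Gam (gen i)⁻¹ • (m - c i)
  left_inv m := by
    simp only [add_sub_cancel_right, smul_smul, e, ← map_mul, inv_mul_cancel, map_one, one_smul]
  right_inv m := by
    simp only [smul_smul, e, ← map_mul, mul_inv_cancel, map_one, one_smul, sub_add_cancel]

lemma T_apply (i : Fin 6) (m : Cok) : T i m = e i • m + c i := rfl

lemma T_rel : ∀ i, FreeGroup.lift T (lhs i) = FreeGroup.lift T (rhs i) := by
  rw [rels_iff]
  obtain ⟨h0, h1, h2, h3, h4, h5, h6, h7⟩ := e_rels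
  have r0 := c_row 0
  have r1 := c_row 1
  have r2 := c_row 2
  have r3 := c_row 3
  have r4 := c_row 4
  have r5 := c_row 5
  have r6 := c_row 6
  have r7 := c_row 7
  simp [M2, Fin.sum_univ_succ, sub_smul, mul_smul] at r0 r1 r2 r3 r4 r5 r6 r7
  refine ⟨?_, ?_, ?_, ?_, ?_, ?_, ?_, ?_⟩
  · apply Equiv.ext
    intro m
    simp only [Equiv.Perm.mul_apply, T_apply, smul_add, smul_smul, h0]
    rw [← sub_eq_zero, ← r0]
    abel
  · apply Equiv.ext
    intro m
    simp only [Equiv.Perm.mul_apply, T_apply, smul_add, smul_smul, h1]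
    rw [← sub_eq_zero, ← r1]
    abel
  · apply Equiv.ext
    intro m
    simp only [Equiv.Perm.mul_apply, T_apply, smul_add, smul_smul, h2]
    rw [← sub_eq_zero, ← r2]
    abel
  · apply Equiv.ext
    intro m
    simp only [Equiv.Perm.mul_apply, T_apply, smul_add, smul_smul, h3]
    rw [← sub_eq_zero, ← r3]
    abel
  · apply Equiv.ext
    intro m
    simp only [Equiv.Perm.mul_apply, T_apply, smul_add, smul_smul, h4]
    rw [← sub_eq_zero, ← r4]
    abel
  · apply Equiv.ext
    intro m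
    simp only [Equiv.Perm.mul_apply, T_apply, smul_add, smul_smul, mul_assoc, h5]
    rw [← sub_eq_zero, ← r5]
    simp only [smul_smul, mul_assoc]
    abel
  · apply Equiv.ext
    intro m
    simp only [Equiv.Perm.mul_apply, T_apply, smul_add, smul_smul, h6]
    rw [← sub_eq_zero, ← r6]
    abel
  · apply Equiv.ext
    intro m
    simp only [Equiv.Perm.mul_apply, T_apply, smul_add, smul_smul, mul_assoc, h7]
    rw [← sub_eq_zero, ← r7]
    simp only [smul_smul, mul_assoc]
    abel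

/-- affine action of the group -/
noncomputable def act : Gam →* Equiv.Perm Cok := lft T T_rel

lemma act_formula (g : Gam) (m : Cok) : act g m = MonoidAlgebra.of ℤ Gam g • m + act g 0 := by
  have hg : g ∈ Subgroup.closure (Set.range gen) := by rw [gen_closure]; trivial
  induction hg using Subgroup.closure_induction generalizing m with
  | mem x hx =>
    obtain ⟨i, rfl⟩ := hx
    rw [act, lft_gen, T_apply, T_apply, smul_zero, zero_add]
    rfl
  | one => rw [map_one, map_one, one_smul]; simp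
  | mul x y _ _ hx hy =>
    rw [map_mul, Equiv.Perm.mul_apply, Equiv.Perm.mul_apply, hy, hx, hx (act y 0), map_mul,
      mul_smul, smul_add]
    abel
  | inv x _ hx =>
    have h1 : ∀ m, act x (act x⁻¹ m) = m := by
      intro m
      rw [← Equiv.Perm.mul_apply, ← map_mul, mul_inv_cancel, map_one]
      rfl
    have h2 := h1 m
    have h3 := h1 0
    rw [hx] at h2 h3
    have h4 : MonoidAlgebra.of ℤ Gam x • (act x⁻¹ m - act x⁻¹ 0) = m := by
      rw [← eq_neg_iff_add_eq_zero] at h3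
      rw [smul_sub, h3, sub_neg_eq_add]
      exact h2
    have h5 : MonoidAlgebra.of ℤ Gam x⁻¹ • (MonoidAlgebra.of ℤ Gam x • (act x⁻¹ m - act x⁻¹ 0)) =
        MonoidAlgebra.of ℤ Gam x⁻¹ • m := by rw [h4]
    rw [smul_smul, ← map_mul, inv_mul_cancel, map_one, one_smul] at h5
    rw [← h5]
    abel

/-- additive extension of the derivation -/
noncomputable def D : R →+ Cok where
  toFun x := x.coeff.sum (fun g n => n • act g 0)
  map_zero' := by simp
  map_add' x y := by
    rw [MonoidAlgebra.coeff_add, Finsupp.sum_add_index']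
    · intro; simp
    · intro a b c; rw [add_smul]

lemma D_single (g : Gam) (n : ℤ) : D (MonoidAlgebra.single g n) = n • act g 0 := by
  simp [D]

lemma D_mul (x : R) (i : Fin 6) : D (x * (e i - 1)) = x • c i := by
  induction x using MonoidAlgebra.induction_on with
  | of g =>
    rw [mul_sub, mul_one, map_sub, e, ← map_mul, MonoidAlgebra.of_apply, MonoidAlgebra.of_apply,
      D_single, D_single, one_smul, one_smul, map_mul, Equiv.Perm.mul_apply, act_formula g]
    have : act (gen i) 0 = c i := by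
      rw [act, lft_gen, T_apply, smul_zero, zero_add]
    rw [this, MonoidAlgebra.of_apply]
    abel
  | add x y hx hy => rw [add_mul, map_add, hx, hy, add_smul]
  | smul n x hx =>
    rw [smul_mul_assoc, map_zsmul, hx, smul_assoc]

lemma exact1 (y : Fin 6 → R) (hy : ∑ i, y i * M1 i 0 = 0) :
    ∃ z : Fin 8 → R, ∀ k, ∑ i, z i * M2 i k = y k := by
  have h1 := congrArg D hy
  rw [map_sum, map_zero] at h1
  simp only [M1, D_mul] at h1
  have h2 : (∑ j, y j • c j) = Submodule.Quotient.mk y := by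
    have : y = ∑ j, y j • (Pi.single j 1 : Fin 6 → R) := by
      funext k
      simp [Finset.sum_apply, Pi.single_apply]
    conv_rhs => rw [this]
    rw [← Submodule.mkQ_apply, map_sum]
    rfl
  rw [h2, Submodule.Quotient.mk_eq_zero] at h1
  obtain ⟨z, hz⟩ := h1
  exact ⟨z, fun k => by rw [← mlin_apply, hz]⟩

end Pool.Agent.Helper986.PDThree
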