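import Mathlib

set_option autoImplicit false

namespace Pool.Agent.Helper986.PDThree

open CategoryTheory

section
variable {k : Type} [CommRing k] {G : Type} [Group G]

lemma rep_exact (S : ShortComplex (Rep.{0} k G))
    (h : ∀ x : S.X₂, S.g.hom x = 0 → ∃ y : S.X₁, S.f.hom y = x) : S.Exact := by
  rw [← ShortComplex.exact_map_iff_of_faithful S (forget₂ (Rep.{0} k G) (ModuleCat.{0} k))]
  rw [ShortComplex.moduleCat_exact_iff]
  exact h

lemma free_rho {n : ℕ} (g : G) (x : Fin n →₀ MonoidAlgebra k G) (j : Fin n) :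
    (Representation.free k G (Fin n) g x) j = MonoidAlgebra.single g 1 * x j := by
  induction x using Finsupp.induction_linear with
  | zero => simp
  | add => simp [*, mul_add]
  | single h y =>
    induction y using MonoidAlgebra.induction_linear with
    | zero => simp
    | add a b ha hb => rw [Finsupp.single_add, map_add, Finsupp.add_apply, ha, hb,
        Finsupp.add_apply, mul_add]
    | single i b =>
      classical
      simp only [Representation.finsupp_single, Finsupp.single_apply]
      split_ifs <;> simp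

/-- map of free representations given by a matrix -/
noncomputable def fr {m n : ℕ} (M : Fin m → Fin n → MonoidAlgebra k G) :
    Rep.free k G (Fin m) ⟶ Rep.free k G (Fin n) :=
  Rep.freeLift k G (Rep.free k G (Fin n)) (fun i => Finsupp.equivFunOnFinite.symm (M i))

lemma fr_apply {m n : ℕ} (M : Fin m → Fin n → MonoidAlgebra k G)
    (x : Fin m →₀ MonoidAlgebra k G) (j : Fin n) :
    ((fr M).hom x : Fin n →₀ MonoidAlgebra k G) j = ∑ i, x i * M i j := by
  classical
  have key : (Finsupp.lapply j : (Fin n →₀ MonoidAlgebra k G) →ₗ[k] MonoidAlgebra k G).comp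
      ((fr M).hom.toLinearMap : (Fin m →₀ MonoidAlgebra k G) →ₗ[k] (Fin n →₀ MonoidAlgebra k G)) =
      (∑ i, (LinearMap.mulRight k (M i j)).comp
        (Finsupp.lapply i : (Fin m →₀ MonoidAlgebra k G) →ₗ[k] MonoidAlgebra k G)) := by
    apply Finsupp.lhom_ext'
    intro i
    apply MonoidAlgebra.lhom_ext'
    intro g
    apply LinearMap.ext_ring
    have h1 : (fr M).hom (Finsupp.single i (MonoidAlgebra.single g 1)) =
        (Rep.free k G (Fin n)).ρ g (Finsupp.equivFunOnFinite.symm (M i)) := by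
      have := Representation.freeLift_single_single (Rep.free k G (Fin n)).ρ i g (1 : k)
        (fun i => Finsupp.equivFunOnFinite.symm (M i))
      rw [one_smul] at this
      exact this
    simp only [LinearMap.comp_apply, LinearMap.sum_apply, LinearMap.mulRight_apply]
    change ((fr M).hom (Finsupp.single i (MonoidAlgebra.single g 1)) : Fin n →₀ MonoidAlgebra k G) j = _
    rw [h1]
    rw [Finset.sum_eq_single i]
    · rw [Rep.of_ρ, free_rho]
      simp
    · intro b _ hb
      simp [hb.symm]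
    · simp
  have h2 := LinearMap.congr_fun key x
  simp only [LinearMap.comp_apply, LinearMap.sum_apply, LinearMap.mulRight_apply] at h2
  exact h2

/-- augmentation -/
noncomputable def epsr : Rep.free k G (Fin 1) ⟶ Rep.trivial k G k :=
  Rep.freeLift k G (Rep.trivial k G k) (fun _ => (1 : k))

lemma epsr_apply (x : Fin 1 →₀ MonoidAlgebra k G) :
    ((epsr (k := k) (G := G)).hom x : k) = MonoidAlgebra.lift k k G 1 (x 0) := by
  have key : ((epsr (k := k) (G := G)).hom.toLinearMap : (Fin 1 →₀ MonoidAlgebra k G) →ₗ[k] k) =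
      (MonoidAlgebra.lift k k G 1).toLinearMap.comp
        (Finsupp.lapply 0 : (Fin 1 →₀ MonoidAlgebra k G) →ₗ[k] MonoidAlgebra k G) := by
    apply Finsupp.lhom_ext'
    intro i
    apply MonoidAlgebra.lhom_ext'
    intro g
    apply LinearMap.ext_ring
    have h1 : (epsr (k := k) (G := G)).hom (Finsupp.single i (MonoidAlgebra.single g 1)) =
        (1 : k) • (Rep.trivial k G k).ρ g (1 : k) := by
      exact Representation.freeLift_single_single (Rep.trivial k G k).ρ i g (1 : k)
        (fun i => (1 : k))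
    simp only [LinearMap.comp_apply]
    change (epsr (k := k) (G := G)).hom (Finsupp.single i (MonoidAlgebra.single g 1)) = _
    rw [h1]
    have : i = 0 := Subsingleton.elim _ _
    subst this
    simp
  exact LinearMap.congr_fun key x


lemma fr_comp {l m n : ℕ} (A : Fin l → Fin m → MonoidAlgebra k G)
    (B : Fin m → Fin n → MonoidAlgebra k G) (h : ∀ i j, ∑ t, A i t * B t j = 0) :
    fr A ≫ fr B = 0 := by
  apply Rep.free_ext
  intro i
  apply Finsupp.ext
  intro j
  change ((fr B).hom ((fr A).hom (Finsupp.single i (MonoidAlgebra.single 1 1)) :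
    Fin m →₀ MonoidAlgebra k G) : Fin n →₀ MonoidAlgebra k G) j = 0
  rw [fr_apply]
  rw [← h i j]
  apply Finset.sum_congr rfl
  intro t _
  congr 1
  rw [fr_apply, Finset.sum_eq_single i]
  · rw [Finsupp.single_eq_same, ← MonoidAlgebra.one_def, one_mul]
  · intro b _ hb
    rw [Finsupp.single_eq_of_ne hb, zero_mul]
  · simp

variable (k G)

/-- data of a free resolution of length three of the trivial module -/
structure Dat where
  r1 : ℕ
  r2 : ℕ
  r3 : ℕ
  M1 : Fin r1 → Fin 1 → MonoidAlgebra k G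
  M2 : Fin r2 → Fin r1 → MonoidAlgebra k G
  M3 : Fin r3 → Fin r2 → MonoidAlgebra k G
  h10 : ∀ i, MonoidAlgebra.lift k k G 1 (M1 i 0) = 0
  h21 : ∀ i j, ∑ t, M2 i t * M1 t j = 0
  h32 : ∀ i j, ∑ t, M3 i t * M2 t j = 0
  e0 : ∀ z : MonoidAlgebra k G, MonoidAlgebra.lift k k G 1 z = 0 →
    ∃ x : Fin r1 → MonoidAlgebra k G, ∑ i, x i * M1 i 0 = z
  e1 : ∀ y : Fin r1 → MonoidAlgebra k G, ∑ i, y i * M1 i 0 = 0 →
    ∃ x : Fin r2 → MonoidAlgebra k G, ∀ j, ∑ i, x i * M2 i j = y j
  e2 : ∀ y : Fin r2 → MonoidAlgebra k G, (∀ j, ∑ i, y i * M2 i j = 0) →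
    ∃ x : Fin r3 → MonoidAlgebra k G, ∀ j, ∑ i, x i * M3 i j = y j
  e3 : ∀ y : Fin r3 → MonoidAlgebra k G, (∀ j, ∑ i, y i * M3 i j = 0) → y = 0

variable {k G}

namespace Dat

variable (D : Dat k G)

/-- ranks -/
def rk : ℕ → ℕ
  | 0 => 1
  | 1 => D.r1
  | 2 => D.r2
  | 3 => D.r3
  | _ => 0

/-- matrices -/
def mat : (n : ℕ) → Fin (D.rk (n + 1)) → Fin (D.rk n) → MonoidAlgebra k G
  | 0 => D.M1
  | 1 => D.M2
  | 2 => D.M3
  | _ + 3 => fun i => i.elim0

lemma mat_sq (n : ℕ) (i : Fin (D.rk (n + 1 + 1))) (j : Fin (D.rk n)) :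
    ∑ t, D.mat (n + 1) i t * D.mat n t j = 0 := by
  match n, i, j with
  | 0, i, j => exact D.h21 i j
  | 1, i, j => exact D.h32 i j
  | _ + 2, i, _ => exact i.elim0

/-- the chain complex -/
noncomputable def cpx : ChainComplex (Rep.{0} k G) ℕ :=
  ChainComplex.of (fun n => Rep.free k G (Fin (D.rk n))) (fun n => fr (D.mat n))
    (fun n => fr_comp _ _ (D.mat_sq n))

lemma cpx_d (n : ℕ) : D.cpx.d (n + 1) n = fr (D.mat n) :=
  ChainComplex.of_d (fun n => Rep.free k G (Fin (D.rk n))) (fun n => fr (D.mat n)) n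

instance (n : ℕ) : Projective (D.cpx.X n) := by
  change Projective (Rep.free k G (Fin (D.rk n)))
  infer_instance

lemma ex_aux {m n : ℕ} (M : Fin m → Fin n → MonoidAlgebra k G)
    (x : Fin m →₀ MonoidAlgebra k G) (hx : (fr M).hom x = 0) (j : Fin n) :
    ∑ i, x i * M i j = 0 := by
  rw [← fr_apply, hx]
  rfl

lemma ex_succ (n : ℕ) (x : Fin (D.rk (n + 1)) →₀ MonoidAlgebra k G)
    (hx : (fr (D.mat n)).hom x = 0) :
    ∃ y : Fin (D.rk (n + 2)) →₀ MonoidAlgebra k G, (fr (D.mat (n + 1))).hom y = x := by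
  have h := ex_aux (D.mat n) x hx
  match n, x, h with
  | 0, x, h =>
    obtain ⟨y, hy⟩ := D.e1 x (h (0 : Fin 1))
    refine ⟨Finsupp.equivFunOnFinite.symm y, ?_⟩
    apply Finsupp.ext
    intro j
    exact (fr_apply _ _ _).trans (hy j)
  | 1, x, h =>
    obtain ⟨y, hy⟩ := D.e2 x h
    refine ⟨Finsupp.equivFunOnFinite.symm y, ?_⟩
    apply Finsupp.ext
    intro j
    exact (fr_apply _ _ _).trans (hy j)
  | 2, x, h =>
    have hx0 := D.e3 x h
    refine ⟨0, ?_⟩
    rw [map_zero]
    apply Finsupp.ext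
    intro j
    exact (congrFun hx0 j).symm
  | n + 3, x, h =>
    refine ⟨0, ?_⟩
    rw [map_zero]
    apply Finsupp.ext
    intro j
    exact j.elim0

lemma exactAt_succ (n : ℕ) : D.cpx.ExactAt (n + 1) := by
  rw [HomologicalComplex.exactAt_iff' _ (n + 1 + 1) (n + 1) n (by simp) (by simp)]
  apply rep_exact
  intro x hx
  change ∃ y, (D.cpx.d (n + 1 + 1) (n + 1)).hom y = x
  change (D.cpx.d (n + 1) n).hom x = 0 at hx
  rw [cpx_d] at hx ⊢
  exact D.ex_succ n x hx

/-- augmentation on the complex -/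
noncomputable def aug0 : D.cpx.X 0 ⟶ Rep.trivial k G k := epsr

lemma d0_comp : D.cpx.d 1 0 ≫ D.aug0 = 0 := by
  rw [cpx_d]
  change fr D.M1 ≫ epsr = 0
  apply Rep.free_ext
  intro i
  change (epsr (k := k) (G := G)).hom ((fr D.M1).hom (Finsupp.single i (MonoidAlgebra.single 1 1)) :
    Fin 1 →₀ MonoidAlgebra k G) = 0
  rw [epsr_apply, fr_apply, Finset.sum_eq_single i]
  · rw [Finsupp.single_eq_same, ← MonoidAlgebra.one_def, one_mul]
    exact D.h10 i
  · intro b _ hb
    rw [Finsupp.single_eq_of_ne hb, zero_mul]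
  · simp

/-- the projective resolution -/
noncomputable def res : ProjectiveResolution (Rep.trivial k G k) where
  complex := D.cpx
  projective := fun n => inferInstance
  π := (ChainComplex.toSingle₀Equiv _ _).symm ⟨D.aug0, D.d0_comp⟩
  quasiIso := ⟨fun n => by
    cases n
    · rw [ChainComplex.quasiIsoAt₀_iff, ShortComplex.quasiIso_iff_of_zeros']
      · refine (ShortComplex.exact_and_epi_g_iff_of_iso
          (S₁ := ShortComplex.mk (D.cpx.d 1 0) D.aug0 D.d0_comp) ?_).1 ⟨?_, ?_⟩
        · exact ShortComplex.isoMk (Iso.refl _) (Iso.refl _) (Iso.refl _)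
            ((Category.id_comp _).trans (Category.comp_id _).symm)
            ((Category.id_comp _).trans (Category.comp_id _).symm)
        · apply rep_exact
          intro x hx
          change Fin 1 →₀ MonoidAlgebra k G at x
          change epsr.hom x = 0 at hx
          change ∃ y, (D.cpx.d 1 0).hom y = x
          rw [cpx_d]
          rw [epsr_apply] at hx
          obtain ⟨y, hy⟩ := D.e0 _ hx
          refine ⟨(Finsupp.equivFunOnFinite.symm y : Fin (D.r1) →₀ MonoidAlgebra k G), ?_⟩
          apply Finsupp.ext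
          intro j
          have hj : j = (0 : Fin 1) := Subsingleton.elim (α := Fin 1) _ _
          subst hj
          exact (fr_apply D.M1 _ _).trans hy
        · rw [Rep.epi_iff_surjective]
          intro z
          refine ⟨(Finsupp.single 0 (MonoidAlgebra.single 1 z) : Fin 1 →₀ MonoidAlgebra k G), ?_⟩
          change epsr.hom (Finsupp.single 0 (MonoidAlgebra.single 1 z) : Fin 1 →₀ MonoidAlgebra k G) = z
          rw [epsr_apply]
          simp
      all_goals rfl
    · rw [quasiIsoAt_iff_exactAt']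
      · apply exactAt_succ
      · apply ChainComplex.exactAt_succ_single_obj⟩

end Dat

end

end Pool.Agent.Helper986.PDThree
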