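import Mathlib
import Pool.Agent.Helper986.PDThree.C

set_option autoImplicit false

namespace Pool.Agent.Helper986.PDThree

open CategoryTheory

section
variable {k : Type} [CommRing k] {G : Type} [Group G]

/-- homology of a short complex of modules with vanishing second map -/
lemma homology_of_surj (S : ShortComplex (ModuleCat.{0} k)) (hg : ∀ x : S.X₂, S.g.hom x = 0)
    {W : Type} [AddCommGroup W] (θ : S.X₂ →+ W) (hs : Function.Surjective θ)
    (hk : ∀ x, θ x = 0 ↔ ∃ y : S.X₁, S.f.hom y = x) : Nonempty (S.homology ≃+ W) := by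
  let Φ : (LinearMap.ker S.g.hom) →+ W := θ.comp (LinearMap.ker S.g.hom).subtype.toAddMonoidHom
  have hΦ : Function.Surjective Φ := by
    intro w
    obtain ⟨x, hx⟩ := hs w
    exact ⟨⟨x, hg x⟩, hx⟩
  have hker : (LinearMap.range S.moduleCatToCycles).toAddSubgroup = Φ.ker := by
    ext x
    rw [AddMonoidHom.mem_ker]
    change (x ∈ LinearMap.range S.moduleCatToCycles) ↔ θ x.1 = 0
    rw [hk, LinearMap.mem_range]
    constructor
    · rintro ⟨y, rfl⟩
      exact ⟨y, rfl⟩
    · rintro ⟨y, hy⟩
      exact ⟨y, Subtype.ext hy⟩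
  let e1 : S.homology ≃+ (LinearMap.ker S.g.hom ⧸ LinearMap.range S.moduleCatToCycles) :=
    (S.moduleCatHomologyIso.toLinearEquiv).toAddEquiv
  let e2 : (LinearMap.ker S.g.hom ⧸ LinearMap.range S.moduleCatToCycles) ≃+
      (LinearMap.ker S.g.hom ⧸ Φ.ker) := QuotientAddGroup.quotientAddEquivOfEq hker
  exact ⟨e1.trans (e2.trans (QuotientAddGroup.quotientKerEquivOfSurjective Φ hΦ))⟩

lemma exact_of_homology_subsingleton (S : ShortComplex (ModuleCat.{0} k))
    (h : Subsingleton S.homology) (x : S.X₂) (hx : S.g.hom x = 0) : ∃ y : S.X₁, S.f.hom y = x := by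
  have h1 : S.Exact := by
    rw [ShortComplex.exact_iff_isZero_homology]
    exact ModuleCat.isZero_of_subsingleton _
  rw [ShortComplex.moduleCat_exact_iff] at h1
  exact h1 x hx

/-- homology of a cochain complex in positive degree via explicit short complex -/
lemma homology_iso (K : CochainComplex (ModuleCat.{0} k) ℕ) (n : ℕ) :
    Nonempty (K.homology (n + 1) ≅ (K.sc' n (n + 1) (n + 2)).homology) :=
  ⟨ShortComplex.homologyMapIso (K.isoSc' n (n + 1) (n + 2) (by simp) (by simp))⟩


lemma rho_mul (g : G) (x : MonoidAlgebra k G) :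
    (Representation.ofMulAction k G G g) x = MonoidAlgebra.single g 1 * x := by
  induction x using MonoidAlgebra.induction_linear with
  | zero => simp
  | add a b ha hb => rw [map_add, ha, hb, mul_add]
  | single i b => simp

lemma hom_eval {n : ℕ} (ψ : Rep.free k G (Fin n) ⟶ Rep.ofMulAction k G G)
    (x : Fin n →₀ MonoidAlgebra k G) :
    (ψ.hom x : MonoidAlgebra k G) =
      ∑ j, x j * (ψ.hom (Finsupp.single j 1 : Fin n →₀ MonoidAlgebra k G) : MonoidAlgebra k G) := by
  classical
  have key : (ψ.hom.toLinearMap : (Fin n →₀ MonoidAlgebra k G) →ₗ[k] MonoidAlgebra k G) =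
      ∑ j, (LinearMap.mulRight k (ψ.hom (Finsupp.single j 1 : Fin n →₀ MonoidAlgebra k G) :
        MonoidAlgebra k G)).comp
        (Finsupp.lapply j : (Fin n →₀ MonoidAlgebra k G) →ₗ[k] MonoidAlgebra k G) := by
    apply Finsupp.lhom_ext'
    intro i
    apply MonoidAlgebra.lhom_ext'
    intro g
    apply LinearMap.ext_ring
    simp only [LinearMap.comp_apply, LinearMap.sum_apply, LinearMap.mulRight_apply]
    rw [Finset.sum_eq_single i]
    · have h1 : (Finsupp.single i (MonoidAlgebra.single g 1) : Fin n →₀ MonoidAlgebra k G) =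
          (Rep.free k G (Fin n)).ρ g (Finsupp.single i 1 : Fin n →₀ MonoidAlgebra k G) := by
        rw [MonoidAlgebra.one_def]
        exact (by simp : (Finsupp.single i (MonoidAlgebra.single g 1) : Fin n →₀ MonoidAlgebra k G) =
          (Representation.free k G (Fin n)) g (Finsupp.single i (MonoidAlgebra.single 1 1)))
      change ψ.hom (Finsupp.single i (MonoidAlgebra.single g 1) : Fin n →₀ MonoidAlgebra k G) = _
      rw [h1, Rep.hom_comm_apply]
      refine (rho_mul g _).trans ?_
      simp
    · intro b _ hb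
      simp [hb.symm]
    · simp
  have h2 := LinearMap.congr_fun key x
  simp only [LinearMap.comp_apply, LinearMap.sum_apply, LinearMap.mulRight_apply] at h2
  exact h2


/-- third cohomology with group ring coefficients from a resolution of length three -/
theorem cohomology_three (D : Dat k G) {W : Type} [AddCommGroup W]
    (θ : (Fin D.r3 → MonoidAlgebra k G) →+ W) (hs : Function.Surjective θ)
    (hk : ∀ X, θ X = 0 ↔ ∃ f : Fin D.r2 → MonoidAlgebra k G, ∀ i, X i = ∑ j, D.M3 i j * f j) :
    Nonempty (groupCohomology (Rep.ofMulAction k G G) 3 ≃+ W) := by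
  let A := Rep.ofMulAction k G G
  let K := D.res.complex.linearYonedaObj k A
  obtain ⟨i2⟩ := homology_iso K 2
  let i1 : groupCohomology A 3 ≅ K.homology 3 := groupCohomologyIso A 3 D.res
  have i3 : groupCohomology A 3 ≃+ (K.sc' 2 3 4).homology :=
    ((i1 ≪≫ i2).toLinearEquiv).toAddEquiv
  let θ' : (Rep.free k G (Fin D.r3) ⟶ A) →+ W :=
    { toFun := fun φ => θ (fun i => (φ.hom (Finsupp.single i 1 : Fin D.r3 →₀ MonoidAlgebra k G) :
        MonoidAlgebra k G))
      map_zero' := by
        rw [← map_zero θ]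
        rfl
      map_add' := by
        intro a b
        rw [← map_add]
        rfl }
  have main : Nonempty ((K.sc' 2 3 4).homology ≃+ W) := by
    apply homology_of_surj (K.sc' 2 3 4) _ θ'
    · intro w
      obtain ⟨X, hX⟩ := hs w
      refine ⟨Rep.freeLift k G A X, ?_⟩
      change θ _ = w
      rw [← hX]
      congr 1
      funext i
      have := Representation.freeLift_single_single A.ρ i (1 : G) (1 : k) X
      rw [one_smul, map_one] at this
      rw [MonoidAlgebra.one_def]
      exact this
    · intro φ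
      change Rep.free k G (Fin D.r3) ⟶ A at φ
      change θ (fun i => (φ.hom (Finsupp.single i 1 : Fin D.r3 →₀ MonoidAlgebra k G) :
        MonoidAlgebra k G)) = 0 ↔ ∃ ψ : Rep.free k G (Fin D.r2) ⟶ A, D.cpx.d 3 2 ≫ ψ = φ
      rw [hk]
      have hd : D.cpx.d 3 2 = fr D.M3 := D.cpx_d 2
      rw [hd]
      have hev : ∀ (ψ : Rep.free k G (Fin D.r2) ⟶ A) (i : Fin D.r3),
          ((fr D.M3 ≫ ψ).hom (Finsupp.single i 1 : Fin D.r3 →₀ MonoidAlgebra k G) :
          MonoidAlgebra k G) = ∑ j, D.M3 i j *
            (ψ.hom (Finsupp.single j 1 : Fin D.r2 →₀ MonoidAlgebra k G) : MonoidAlgebra k G) := by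
        intro ψ i
        change (ψ.hom ((fr D.M3).hom (Finsupp.single i 1 : Fin D.r3 →₀ MonoidAlgebra k G)) :
          MonoidAlgebra k G) = _
        rw [hom_eval]
        apply Finset.sum_congr rfl
        intro j _
        congr 1
        rw [fr_apply, Finset.sum_eq_single i]
        · rw [Finsupp.single_eq_same, one_mul]
        · intro b _ hb
          rw [Finsupp.single_eq_of_ne hb, zero_mul]
        · simp
      constructor
      · rintro ⟨f, hf⟩
        refine ⟨Rep.freeLift k G A f, ?_⟩
        apply Rep.free_ext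
        intro i
        rw [← MonoidAlgebra.one_def]
        refine (hev _ i).trans ?_
        refine Eq.trans ?_ (hf i).symm
        apply Finset.sum_congr rfl
        intro j _
        congr 1
        have := Representation.freeLift_single_single A.ρ j (1 : G) (1 : k) f
        rw [one_smul, map_one] at this
        rw [MonoidAlgebra.one_def]
        exact this
      · rintro ⟨ψ, rfl⟩
        exact ⟨fun j => ψ.hom (Finsupp.single j 1 : Fin D.r2 →₀ MonoidAlgebra k G), fun i => hev ψ i⟩
    · intro φ
      change Rep.free k G (Fin D.r3) ⟶ A at φ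
      change D.cpx.d 4 3 ≫ φ = 0
      apply Rep.free_ext
      intro i
      exact i.elim0
  obtain ⟨e⟩ := main
  exact ⟨i3.trans e⟩


/-- restriction of coefficients to a subgroup -/
noncomputable def resS (S : Subgroup G) : MonoidAlgebra k G →ₗ[k] MonoidAlgebra k S :=
  (MonoidAlgebra.coeffLinearEquiv k).symm.toLinearMap ∘ₗ
    Finsupp.lcomapDomain (Subtype.val : S → G) Subtype.val_injective ∘ₗ
    (MonoidAlgebra.coeffLinearEquiv k).toLinearMap

lemma resS_coeff (S : Subgroup G) (x : MonoidAlgebra k G) (s : S) :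
    (resS S x).coeff s = x.coeff s := rfl

lemma resS_mul (S : Subgroup G) (s : S) (x : MonoidAlgebra k G) :
    resS S (MonoidAlgebra.single (s : G) 1 * x) = MonoidAlgebra.single s 1 * resS S x := by
  apply MonoidAlgebra.ext
  apply Finsupp.ext
  intro t
  rw [resS_coeff, MonoidAlgebra.coeff_single_mul_apply, MonoidAlgebra.coeff_single_mul_apply,
    resS_coeff]
  rfl

theorem cohomology_two_sub (D : Dat k G) (S : Subgroup G)
    (h : Subsingleton (groupCohomology (Rep.ofMulAction k S S) 2))
    (c : Fin D.r2 → MonoidAlgebra k G) (hc : ∀ i, ∑ j, D.M3 i j * c j = 0) :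
    ∃ b : (Fin D.r1 →₀ MonoidAlgebra k G) →+ MonoidAlgebra k S,
      (∀ (s : S) (x : Fin D.r1 →₀ MonoidAlgebra k G),
        b (Representation.free k G (Fin D.r1) s x) = MonoidAlgebra.single s 1 * b x) ∧
      ∀ x : Fin D.r2 →₀ MonoidAlgebra k G,
        b ((fr D.M2).hom x) = resS S (∑ j, x j * c j) := by
  let A := Rep.ofMulAction k S S
  let P' := (Rep.resFunctor S.subtype).mapProjectiveResolution D.res
  let K := P'.complex.linearYonedaObj k A
  obtain ⟨i2⟩ := homology_iso K 1
  let i1 : groupCohomology A 2 ≅ K.homology 2 := groupCohomologyIso A 2 P'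
  have h2 : Subsingleton ((K.sc' 1 2 3).homology) :=
    ((i1 ≪≫ i2).toLinearEquiv).toEquiv.symm.injective.subsingleton
  let φ0 : (Fin D.r2 →₀ MonoidAlgebra k G) →ₗ[k] MonoidAlgebra k S :=
    (resS S).comp (∑ j, (LinearMap.mulRight k (c j)).comp
      (Finsupp.lapply j : (Fin D.r2 →₀ MonoidAlgebra k G) →ₗ[k] MonoidAlgebra k G))
  have hφ0 : ∀ x, φ0 x = resS S (∑ j, x j * c j) := by
    intro x
    simp only [φ0, LinearMap.comp_apply, LinearMap.sum_apply, LinearMap.mulRight_apply,
      Finsupp.lapply_apply]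
  let φ : (Rep.resFunctor S.subtype).obj (Rep.free k G (Fin D.r2)) ⟶ A :=
    Rep.ofHom ⟨φ0, by
      intro s
      apply LinearMap.ext
      intro x
      simp only [LinearMap.comp_apply]
      refine (hφ0 _).trans ?_
      refine Eq.trans ?_ (rho_mul s _).symm
      rw [hφ0, ← resS_mul, Finset.mul_sum]
      congr 1
      apply Finset.sum_congr rfl
      intro j _
      rw [← mul_assoc]
      congr 1
      exact free_rho _ _ _⟩
  have hcl : (K.sc' 1 2 3).g.hom φ = 0 := by
    change ((Rep.resFunctor S.subtype).map (D.cpx.d 3 2)) ≫ φ = 0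
    have hd : D.cpx.d 3 2 = fr D.M3 := D.cpx_d 2
    rw [hd]
    apply Rep.hom_ext
    apply Representation.IntertwiningMap.ext
    apply LinearMap.ext
    intro x
    change Fin D.r3 →₀ MonoidAlgebra k G at x
    change φ0 ((fr D.M3).hom x) = 0
    rw [hφ0]
    have : ∑ j, ((fr D.M3).hom x : Fin D.r2 →₀ MonoidAlgebra k G) j * c j = 0 := by
      refine (Finset.sum_congr rfl (fun j _ => congrArg (fun z => z * c j)
        (fr_apply D.M3 x j))).trans ?_
      simp only [Finset.sum_mul]
      rw [Finset.sum_comm]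
      apply Finset.sum_eq_zero
      intro i _
      simp only [mul_assoc, ← Finset.mul_sum]
      rw [hc, mul_zero]
    rw [this, map_zero]
  obtain ⟨ψ, hψ⟩ := exact_of_homology_subsingleton (K.sc' 1 2 3) h2 φ hcl
  change (Rep.resFunctor S.subtype).obj (Rep.free k G (Fin D.r1)) ⟶ A at ψ
  change ((Rep.resFunctor S.subtype).map (D.cpx.d 2 1)) ≫ ψ = φ at hψ
  have hd : D.cpx.d 2 1 = fr D.M2 := D.cpx_d 1
  rw [hd] at hψ
  refine ⟨ψ.hom.toLinearMap.toAddMonoidHom, ?_, ?_⟩
  · intro s x
    have := Rep.hom_comm_apply ψ s x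
    exact this.trans (rho_mul s _)
  · intro x
    rw [← hφ0]
    have := congrArg (fun f => f.hom x) hψ
    exact this

end

end Pool.Agent.Helper986.PDThree
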