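import Mathlib
import Pool.Agent.Helper986.PDThree.D

set_option autoImplicit false

namespace Pool.Agent.Helper986.PDThree

open CategoryTheory

section
variable {k : Type} [CommRing k] {G : Type} [Group G]

/-- augmentation of a group ring -/
noncomputable def ep (k : Type) [CommRing k] (G : Type) [Group G] : MonoidAlgebra k G →ₐ[k] k :=
  MonoidAlgebra.lift k k G 1

lemma ep_single (g : G) (n : k) : ep k G (MonoidAlgebra.single g n) = n := by
  simp [ep]

/-- transfer type functional -/
lemma trace_exists (S : Subgroup G) [S.FiniteIndex] {n : ℕ}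
    (b : (Fin n →₀ MonoidAlgebra k G) →+ MonoidAlgebra k S)
    (hb : ∀ (s : S) (x : Fin n →₀ MonoidAlgebra k G),
        b (Representation.free k G (Fin n) s x) = MonoidAlgebra.single s 1 * b x) :
    ∃ (fin : Fintype (G ⧸ S)) (T : (Fin n →₀ MonoidAlgebra k G) →+ k),
      (∀ (g : G) x, T (Representation.free k G (Fin n) g x) = T x) ∧
      (∀ x, T x = ∑ q : G ⧸ S, ep k S (b (Representation.free k G (Fin n) (q.out)⁻¹ x))) := by
  classical
  let fin : Fintype (G ⧸ S) := Fintype.ofFinite _
  let F : (Fin n →₀ MonoidAlgebra k G) → G → k :=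
    fun x g => ep k S (b (Representation.free k G (Fin n) g⁻¹ x))
  have hF : ∀ x g (s : S), F x (g * s) = F x g := by
    intro x g s
    simp only [F]
    rw [mul_inv_rev, map_mul, Module.End.mul_apply]
    have := hb s⁻¹ (Representation.free k G (Fin n) g⁻¹ x)
    rw [Subgroup.coe_inv] at this
    rw [this, map_mul, ep_single, one_mul]
  have hout : ∀ x g, F x ((QuotientGroup.mk g : G ⧸ S).out) = F x g := by
    intro x g
    obtain ⟨s, hs⟩ := QuotientGroup.mk_out_eq_mul S g
    rw [hs, hF]
  let T : (Fin n →₀ MonoidAlgebra k G) →+ k :=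
    { toFun := fun x => ∑ q : G ⧸ S, F x q.out
      map_zero' := by simp [F]
      map_add' := by
        intro x y
        simp [F, Finset.sum_add_distrib] }
  refine ⟨fin, T, ?_, fun x => rfl⟩
  intro h x
  change ∑ q : G ⧸ S, F (Representation.free k G (Fin n) h x) q.out = ∑ q : G ⧸ S, F x q.out
  have h1 : ∀ q : G ⧸ S, F (Representation.free k G (Fin n) h x) q.out = F x ((h⁻¹ • q).out) := by
    intro q
    have h2 : h⁻¹ • q = QuotientGroup.mk (h⁻¹ * q.out) := by
      conv_lhs => rw [← QuotientGroup.out_eq' q]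
      rfl
    rw [h2, hout]
    simp only [F]
    rw [mul_inv_rev, inv_inv, map_mul, Module.End.mul_apply]
  rw [Finset.sum_congr rfl (fun q _ => h1 q)]
  exact Equiv.sum_comp (MulAction.toPerm h⁻¹) (fun q : G ⧸ S => F x q.out)

theorem two_sub_ne (D : Dat k G) [Nontrivial k] (S : Subgroup G) [S.FiniteIndex]
    (h : Subsingleton (groupCohomology (Rep.ofMulAction k S S) 2))
    (c : Fin D.r2 → MonoidAlgebra k G) (hc : ∀ i, ∑ j, D.M3 i j * c j = 0)
    (i : Fin D.r2) (hci : c i = 1)
    (hM : ∀ j, ∃ g h : G, ∃ x : k, D.M2 i j = MonoidAlgebra.single g x - MonoidAlgebra.single h x) :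
    False := by
  classical
  obtain ⟨b, hb1, hb2⟩ := cohomology_two_sub D S h c hc
  obtain ⟨fin, T, hT1, hT2⟩ := trace_exists S b hb1
  have h1 : T ((fr D.M2).hom (Finsupp.single i 1 : Fin D.r2 →₀ MonoidAlgebra k G)) = 0 := by
    have h2 : ((fr D.M2).hom (Finsupp.single i 1 : Fin D.r2 →₀ MonoidAlgebra k G) :
        Fin D.r1 →₀ MonoidAlgebra k G) = ∑ j, Finsupp.single j (D.M2 i j) := by
      apply Finsupp.ext
      intro j
      rw [fr_apply, Finsupp.finsetSum_apply, Finset.sum_eq_single i, Finset.sum_eq_single j]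
      · simp
      · intro b _ hb
        simp [hb]
      · simp
      · intro b _ hb
        rw [Finsupp.single_eq_of_ne hb, zero_mul]
      · simp
    rw [h2, map_sum]
    apply Finset.sum_eq_zero
    intro j _
    obtain ⟨g, h, x, hx⟩ := hM j
    have h3 : ∀ g : G, T (Finsupp.single j (MonoidAlgebra.single g x)) =
        T (Finsupp.single j (MonoidAlgebra.single 1 x)) := by
      intro g
      rw [← hT1 g (Finsupp.single j (MonoidAlgebra.single 1 x))]
      simp
    rw [hx, Finsupp.single_sub, map_sub, h3 g, h3 h, sub_self]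
  rw [hT2] at h1
  have h4 : ∀ q : G ⧸ S, ep k S (b (Representation.free k G (Fin D.r1) (q.out)⁻¹
      ((fr D.M2).hom (Finsupp.single i 1 : Fin D.r2 →₀ MonoidAlgebra k G)))) =
      if q = QuotientGroup.mk 1 then 1 else 0 := by
    intro q
    have h5 : Representation.free k G (Fin D.r1) (q.out)⁻¹
      ((fr D.M2).hom (Finsupp.single i 1 : Fin D.r2 →₀ MonoidAlgebra k G)) =
      (fr D.M2).hom (Finsupp.single i (MonoidAlgebra.single (q.out)⁻¹ 1) :
        Fin D.r2 →₀ MonoidAlgebra k G) := by
      have := Rep.hom_comm_apply (fr D.M2) (q.out)⁻¹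
        (Finsupp.single i 1 : Fin D.r2 →₀ MonoidAlgebra k G)
      refine this.symm.trans ?_
      congr 1
      rw [MonoidAlgebra.one_def]
      exact (by simp : (Representation.free k G (Fin D.r2)) (q.out)⁻¹
        (Finsupp.single i (MonoidAlgebra.single 1 1)) =
        (Finsupp.single i (MonoidAlgebra.single (q.out)⁻¹ 1) : Fin D.r2 →₀ MonoidAlgebra k G))
    rw [h5, hb2]
    have h6 : ∑ j, (Finsupp.single i (MonoidAlgebra.single (q.out)⁻¹ 1) :
        Fin D.r2 →₀ MonoidAlgebra k G) j * c j = MonoidAlgebra.single (q.out)⁻¹ 1 := by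
      rw [Finset.sum_eq_single i]
      · rw [Finsupp.single_eq_same, hci, mul_one]
      · intro b _ hb
        rw [Finsupp.single_eq_of_ne hb, zero_mul]
      · simp
    rw [h6]
    split_ifs with hq
    · have hmem : (q.out)⁻¹ ∈ S := by
        have : (QuotientGroup.mk q.out : G ⧸ S) = QuotientGroup.mk 1 := by
          rw [QuotientGroup.out_eq', hq]
        have h7 := QuotientGroup.eq.1 this
        simpa using h7
      have : resS S (MonoidAlgebra.single (q.out)⁻¹ (1 : k)) = MonoidAlgebra.single ⟨(q.out)⁻¹, hmem⟩ 1 := by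
        apply MonoidAlgebra.ext
        apply Finsupp.ext
        intro t
        rw [resS_coeff]
        simp [MonoidAlgebra.coeff_single, Finsupp.single_apply, Subtype.ext_iff]
      rw [this, ep_single]
    · have hmem : (q.out)⁻¹ ∉ S := by
        intro hm
        apply hq
        rw [← QuotientGroup.out_eq' q]
        apply QuotientGroup.eq.2
        simpa using hm
      have : resS S (MonoidAlgebra.single (q.out)⁻¹ (1 : k)) = 0 := by
        apply MonoidAlgebra.ext
        apply Finsupp.ext
        intro t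
        rw [resS_coeff]
        have hne : (q.out)⁻¹ ≠ (t : G) := fun h => hmem (h ▸ t.2)
        simp [MonoidAlgebra.coeff_single, Finsupp.single_apply, hne]
      rw [this, map_zero]
  rw [Finset.sum_congr rfl (fun q _ => h4 q)] at h1
  simp at h1

end

end Pool.Agent.Helper986.PDThree
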