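import Mathlib
import Pool.Agent.Helper986.PDThree.B
import Pool.Agent.Helper986.PDThree.E

set_option autoImplicit false
set_option linter.unusedSimpArgs false

namespace Pool.Agent.Helper986.PDThree

open CategoryTheory

lemma aug_mem (z : R) : z - MonoidAlgebra.single 1 (MonoidAlgebra.lift ℤ ℤ Gam 1 z) ∈ aug := by
  induction z using MonoidAlgebra.induction_on with
  | of g =>
    have : MonoidAlgebra.lift ℤ ℤ Gam 1 (MonoidAlgebra.of ℤ Gam g) = 1 := by simp
    rw [this, ← MonoidAlgebra.one_def]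
    exact Submodule.subset_span ⟨g, rfl⟩
  | add x y hx hy =>
    rw [map_add, MonoidAlgebra.single_add]
    have : x + y - (MonoidAlgebra.single 1 (MonoidAlgebra.lift ℤ ℤ Gam 1 x) +
        MonoidAlgebra.single 1 (MonoidAlgebra.lift ℤ ℤ Gam 1 y)) =
        (x - MonoidAlgebra.single 1 (MonoidAlgebra.lift ℤ ℤ Gam 1 x)) +
        (y - MonoidAlgebra.single 1 (MonoidAlgebra.lift ℤ ℤ Gam 1 y)) := by abel
    rw [this]
    exact aug.add_mem hx hy
  | smul n x hx =>
    rw [map_zsmul]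
    have : n • x - (MonoidAlgebra.single 1 (n • MonoidAlgebra.lift ℤ ℤ Gam 1 x)) =
        n • (x - MonoidAlgebra.single 1 (MonoidAlgebra.lift ℤ ℤ Gam 1 x)) := by
      rw [smul_sub, MonoidAlgebra.smul_single]
    rw [this]
    exact zsmul_mem hx n

/-- the resolution data -/
noncomputable def D0 : Dat ℤ Gam where
  r1 := 6
  r2 := 8
  r3 := 2
  M1 := M1
  M2 := M2
  M3 := M3
  h10 := by
    intro i
    simp [M1, e]
  h21 := M21
  h32 := M32
  e0 := by
    intro z hz
    apply exact0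
    have := aug_mem z
    rw [hz] at this
    simpa using this
  e1 := exact1
  e2 := exact2
  e3 := exact3

lemma fp3 : ∃ (r1 r2 r3 : ℕ)
          (d1 : (Fin r1 → MonoidAlgebra ℤ Gam) →ₗ[MonoidAlgebra ℤ Gam] MonoidAlgebra ℤ Gam)
          (d2 : (Fin r2 → MonoidAlgebra ℤ Gam) →ₗ[MonoidAlgebra ℤ Gam] (Fin r1 → MonoidAlgebra ℤ Gam))
          (d3 : (Fin r3 → MonoidAlgebra ℤ Gam) →ₗ[MonoidAlgebra ℤ Gam] (Fin r2 → MonoidAlgebra ℤ Gam)),
          LinearMap.range d1 = Submodule.span (MonoidAlgebra ℤ Gam)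
              (Set.range (fun g : Gam => MonoidAlgebra.of ℤ Gam g - 1)) ∧
          LinearMap.range d2 = LinearMap.ker d1 ∧
          LinearMap.range d3 = LinearMap.ker d2 := by
  refine ⟨6, 8, 2, (LinearMap.proj (0 : Fin 1)).comp (mlin M1), mlin M2, mlin M3, ?_, ?_, ?_⟩
  · apply le_antisymm
    · rintro _ ⟨x, rfl⟩
      change ∑ i, x i * M1 i 0 ∈ aug
      apply Submodule.sum_mem
      intro i _
      apply aug.smul_mem
      exact Submodule.subset_span ⟨gen i, rfl⟩
    · intro z hz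
      obtain ⟨x, hx⟩ := exact0 z hz
      exact ⟨x, hx⟩
  · apply le_antisymm
    · rintro _ ⟨x, rfl⟩
      rw [LinearMap.mem_ker]
      change ∑ j, (∑ i, x i * M2 i j) * M1 j 0 = 0
      simp only [Finset.sum_mul]
      rw [Finset.sum_comm]
      apply Finset.sum_eq_zero
      intro i _
      simp only [mul_assoc, ← Finset.mul_sum]
      rw [M21, mul_zero]
    · intro y hy
      obtain ⟨x, hx⟩ := exact1 y hy
      exact ⟨x, funext hx⟩
  · apply le_antisymm
    · rintro _ ⟨x, rfl⟩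
      rw [LinearMap.mem_ker]
      funext k
      change ∑ j, (∑ i, x i * M3 i j) * M2 j k = 0
      simp only [Finset.sum_mul]
      rw [Finset.sum_comm]
      apply Finset.sum_eq_zero
      intro i _
      simp only [mul_assoc, ← Finset.mul_sum]
      rw [M32, mul_zero]
    · intro y hy
      rw [LinearMap.mem_ker] at hy
      obtain ⟨x, hx⟩ := exact2 y (fun k => congrFun hy k)
      exact ⟨x, funext hx⟩

/-- sign character -/
def sgnf : Fin 6 → ℤˣ := ![1, 1, 1, 1, -1, -1]

lemma sgn_rel : ∀ i, FreeGroup.lift sgnf (lhs i) = FreeGroup.lift sgnf (rhs i) := by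
  rw [rels_iff]
  refine ⟨?_, ?_, ?_, ?_, ?_, ?_, ?_, ?_⟩ <;> simp [sgnf]

/-- sign character -/
def sgn : Gam →* ℤˣ := lft sgnf sgn_rel

/-- sign character on the group ring -/
noncomputable def ch : R →ₐ[ℤ] ℤ := MonoidAlgebra.lift ℤ ℤ Gam ((Units.coeHom ℤ).comp sgn)

lemma ch_of (g : Gam) : ch (MonoidAlgebra.of ℤ Gam g) = (sgn g : ℤ) := by
  simp [ch]

lemma ch_e (i : Fin 6) : ch (e i) = (sgnf i : ℤ) := by
  rw [e, ch_of, sgn, lft_gen]

/-- image of the dual of the third boundary -/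
def InIm (X : Fin 2 → R) : Prop := ∃ f : Fin 8 → R, ∀ i, X i = ∑ j, M3 i j * f j

lemma inIm_add {X Y : Fin 2 → R} (hX : InIm X) (hY : InIm Y) : InIm (X + Y) := by
  obtain ⟨f, hf⟩ := hX
  obtain ⟨g, hg⟩ := hY
  refine ⟨f + g, fun i => ?_⟩
  simp [hf, hg, mul_add, Finset.sum_add_distrib]

lemma inIm_mul {X : Fin 2 → R} (hX : InIm X) (r : R) : InIm (fun i => X i * r) := by
  obtain ⟨f, hf⟩ := hX
  refine ⟨fun j => f j * r, fun i => ?_⟩
  simp only [hf, Finset.sum_mul, mul_assoc]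

lemma inIm_neg {X : Fin 2 → R} (hX : InIm X) : InIm (-X) := by
  have := inIm_mul hX (-1)
  have h2 : (fun i => X i * (-1)) = -X := by
    funext i; simp
  rwa [h2] at this

lemma inIm_col (j : Fin 8) : InIm (fun i => M3 i j) := by
  refine ⟨Pi.single j 1, fun i => ?_⟩
  simp [Pi.single_apply]

/-- the right ideal of first coordinates -/
def J (x : R) : Prop := InIm ![x, 0]

lemma J_add {x y : R} (hx : J x) (hy : J y) : J (x + y) := by
  have := inIm_add hx hy
  simpa [J] using this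

lemma J_mul {x : R} (hx : J x) (r : R) : J (x * r) := by
  have := inIm_mul hx r
  have h2 : (fun i => (![x, 0] : Fin 2 → R) i * r) = ![x * r, 0] := by
    funext i; fin_cases i <;> simp
  rw [h2] at this
  exact this

lemma J_neg {x : R} (hx : J x) : J (-x) := by
  have := J_mul hx (-1)
  simpa using this

lemma J_sub {x y : R} (hx : J x) (hy : J y) : J (x - y) := by
  rw [sub_eq_add_neg]
  exact J_add hx (J_neg hy)

lemma J_of {X : Fin 2 → R} (hX : InIm X) : J (X 0 + X 1) := by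
  have h1 := inIm_mul (inIm_col 0) (-(X 1))
  have h2 := inIm_add hX h1
  have h3 : (X + fun i => M3 i 0 * -(X 1)) = ![X 0 + X 1, 0] := by
    funext i
    fin_cases i <;> simp [M3]
  rw [h3] at h2
  exact h2

lemma of_J {X : Fin 2 → R} (hX : J (X 0 + X 1)) : InIm X := by
  have h1 := inIm_mul (inIm_col 0) (X 1)
  have h2 := inIm_add hX h1
  have h3 : (![X 0 + X 1, 0] + fun i => M3 i 0 * (X 1)) = X := by
    funext i
    fin_cases i <;> simp [M3]
  rw [h3] at h2
  exact h2

lemma J0 : J (e 0 - 1) := by simpa [M3] using J_of (inIm_col 5)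
lemma J2 : J (e 2 - 1) := by simpa [M3] using J_of (inIm_col 7)
lemma Jv : J (e 2 * e 3 - 1) := by
  have := J_neg (J_of (inIm_col 4))
  simpa [M3] using this
lemma Jw : J (e 0 * e 1 - 1) := by
  have := J_neg (J_of (inIm_col 6))
  simpa [M3] using this
lemma J1 : J (e 1 - 1) := by
  have h1 := J_mul J0 (e 1)
  have h2 := J_sub Jw h1
  have : e 0 * e 1 - 1 - (e 0 - 1) * e 1 = e 1 - 1 := by
    rw [sub_mul, one_mul]; abel
  rwa [this] at h2
lemma J3 : J (e 3 - 1) := by
  have h1 := J_mul J2 (e 3)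
  have h2 := J_sub Jv h1
  have : e 2 * e 3 - 1 - (e 2 - 1) * e 3 = e 3 - 1 := by
    rw [sub_mul, one_mul]; abel
  rwa [this] at h2
lemma J4 : J (e 4 + 1) := by
  have h1 : J (e 4 + e 0) := by simpa [M3] using J_of (inIm_col 2)
  have h2 := J_sub h1 J0
  have : e 4 + e 0 - (e 0 - 1) = e 4 + 1 := by abel
  rwa [this] at h2
lemma J5 : J (e 5 + 1) := by
  have h1 : J (-(e 2) + -(e 5)) := by simpa [M3] using J_of (inIm_col 1)
  have h2 := J_sub (J_neg h1) J2
  have : -(-(e 2) + -(e 5)) - (e 2 - 1) = e 5 + 1 := by abel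
  rwa [this] at h2

lemma J_gen (i : Fin 6) : J (e i - ((sgnf i : ℤˣ) : ℤ)) := by
  fin_cases i
  · simpa [sgnf] using J0
  · simpa [sgnf] using J1
  · simpa [sgnf] using J2
  · simpa [sgnf] using J3
  · simpa [sgnf] using J4
  · simpa [sgnf] using J5


lemma J_int_mul {x : R} (hx : J x) (n : ℤ) : J ((n : R) * x) := by
  have h := J_mul hx (n : R)
  have : x * (n : R) = (n : R) * x := (Int.cast_commute n x).symm.eq
  rwa [this] at h

lemma J_all (g : Gam) : J (MonoidAlgebra.of ℤ Gam g - ((sgn g : ℤ) : R)) := by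
  have hg : g ∈ Subgroup.closure (Set.range gen) := by rw [gen_closure]; trivial
  induction hg using Subgroup.closure_induction with
  | mem x hx =>
    obtain ⟨i, rfl⟩ := hx
    have := J_gen i
    rw [sgn, lft_gen]
    exact this
  | one =>
    rw [map_one, map_one]
    simp [J]
    refine ⟨0, fun i => ?_⟩
    fin_cases i <;> simp
  | mul x y _ _ hx hy =>
    have h1 := J_mul hx (MonoidAlgebra.of ℤ Gam y)
    have h2 := J_int_mul hy (sgn x : ℤ)
    have h3 := J_add h1 h2
    have h4 : (MonoidAlgebra.of ℤ Gam x - ((sgn x : ℤ) : R)) * MonoidAlgebra.of ℤ Gam y +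
        ((sgn x : ℤ) : R) * (MonoidAlgebra.of ℤ Gam y - ((sgn y : ℤ) : R)) =
        MonoidAlgebra.of ℤ Gam (x * y) - ((sgn (x * y) : ℤ) : R) := by
      rw [map_mul, map_mul, Units.val_mul, Int.cast_mul]
      noncomm_ring
    rwa [h4] at h3
  | inv x _ hx =>
    have h1 := J_mul hx (MonoidAlgebra.of ℤ Gam x⁻¹)
    have h2 := J_neg (J_int_mul h1 (sgn x : ℤ))
    have h5 : ((sgn x : ℤ) : R) * ((sgn x : ℤ) : R) = 1 := by
      rw [← Int.cast_mul, ← Units.val_mul, Int.units_mul_self, Units.val_one, Int.cast_one]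
    have h6 : (sgn x⁻¹ : ℤ) = (sgn x : ℤ) := by
      rw [map_inv, Int.units_inv_eq_self]
    have h4 : -(((sgn x : ℤ) : R) * ((MonoidAlgebra.of ℤ Gam x - ((sgn x : ℤ) : R)) *
        MonoidAlgebra.of ℤ Gam x⁻¹)) =
        MonoidAlgebra.of ℤ Gam x⁻¹ - ((sgn x⁻¹ : ℤ) : R) := by
      rw [h6, sub_mul, ← map_mul, mul_inv_cancel, map_one, mul_sub, mul_one, ← mul_assoc, h5]
      noncomm_ring
    rwa [h4] at h2

lemma J_zsmul {x : R} (hx : J x) (n : ℤ) : J (n • x) := by
  have := J_int_mul hx n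
  rwa [← zsmul_eq_mul] at this

lemma J_sub_ch (x : R) : J (x - ((ch x : ℤ) : R)) := by
  induction x using MonoidAlgebra.induction_on with
  | of g => rw [ch_of]; exact J_all g
  | add x y hx hy =>
    have := J_add hx hy
    rw [map_add, Int.cast_add]
    have h : x + y - (((ch x : ℤ) : R) + ((ch y : ℤ) : R)) =
        x - ((ch x : ℤ) : R) + (y - ((ch y : ℤ) : R)) := by abel
    rwa [h]
  | smul n x hx =>
    have := J_zsmul hx n
    rw [map_zsmul, smul_eq_mul, Int.cast_mul, ← zsmul_eq_mul, ← smul_sub]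
    exact this

/-- the map computing the third cohomology -/
noncomputable def theta : (Fin 2 → R) →+ ℤ where
  toFun X := ch (X 0) + ch (X 1)
  map_zero' := by simp
  map_add' X Y := by
    simp only [Pi.add_apply, map_add]
    ring

lemma theta_surj : Function.Surjective theta := by
  intro n
  refine ⟨![(n : R), 0], ?_⟩
  simp [theta]

lemma theta_ker (X : Fin 2 → R) : theta X = 0 ↔ InIm X := by
  constructor
  · intro h
    apply of_J
    have h1 := J_sub_ch (X 0 + X 1)
    have h2 : ch (X 0 + X 1) = 0 := by rw [map_add]; exact h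
    rw [h2, Int.cast_zero, sub_zero] at h1
    exact h1
  · rintro ⟨f, hf⟩
    change ch (X 0) + ch (X 1) = 0
    rw [hf, hf]
    simp [M3, Fin.sum_univ_succ, ch_e, sgnf]
    ring

lemma H3 : Nonempty (groupCohomology (Rep.ofMulAction ℤ Gam Gam) 3 ≃+ ℤ) :=
  cohomology_three D0 theta theta_surj theta_ker

/-- the cocycle -/
noncomputable def coc : Fin 8 → R :=
  ![1, -(e 3), -(e 1), e 1 * e 3, 1 + e 4 * e 1, 0, -(1 + e 5 * e 3), 0]

lemma coc_closed (i : Fin 2) : ∑ j, M3 i j * coc j = 0 := by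
  obtain ⟨h0, h1, h2, h3, h4, h5, h6, h7⟩ := e_rels
  have k0 := rr h0
  have k1 := rr h1
  have k2 := rr h2
  have k3 := rr h3
  have k4 := rr h4
  have k5 := rr3 h5
  have k6 := rr h6
  have k7 := rr3 h7
  fin_cases i <;>
  simp [M3, coc, Fin.sum_univ_succ, mul_sub, sub_mul, mul_add, add_mul, mul_assoc, h0, h1, h2, h3,
    h4, h5, h6, h7, k0, k1, k2, k3, k4, k5, k6, k7] <;> abel

lemma no_sub (S : Subgroup Gam) [S.FiniteIndex]
    (h : Subsingleton (groupCohomology (Rep.ofMulAction ℤ S S) 2)) : False := by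
  apply two_sub_ne D0 S h coc coc_closed (0 : Fin 8) (by simp [coc])
  intro j
  change Fin 6 at j
  change ∃ g h : Gam, ∃ x : ℤ, M2 0 j = MonoidAlgebra.single g x - MonoidAlgebra.single h x
  fin_cases j
  · refine ⟨1, gen 2, 1, ?_⟩
    simp [M2, e, MonoidAlgebra.one_def]
  · exact ⟨1, 1, 0, by simp [M2]⟩
  · refine ⟨gen 0, 1, 1, ?_⟩
    simp [M2, e, MonoidAlgebra.one_def]
  · exact ⟨1, 1, 0, by simp [M2]⟩
  · exact ⟨1, 1, 0, by simp [M2]⟩
  · exact ⟨1, 1, 0, by simp [M2]⟩

end Pool.Agent.Helper986.PDThree
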